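import Pool.Agent.Shared.InModel.Card

/-!
Abelian groups, integers, rationals, reals and the circle group inside `M`.
-/

namespace Pool.Agent.Shared.InModel

open Function Filter Topology Pool.Agent.Lib.MP_053343_lc

universe u v w

variable {M : ZFSet.{0}} [Mdl M] {α : Type u} [Cd M α]

/-- Abelian groups whose addition is in `M`. -/
class MG (M : ZFSet.{0}) [Mdl M] (G : Type u) [AddCommGroup G] [Cd M G] : Prop where
  add : MF M fun p : G × G => p.1 + p.2

namespace MF

section Grp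

variable {G : Type v} [AddCommGroup G] [Cd M G] [MG M G] {f g : α → G}

@[fun_prop] theorem add (hf : MF M f) (hg : MF M g) : MF M fun x => f x + g x :=
  MG.add.comp (hf.prodMk hg)

@[fun_prop] theorem neg (hf : MF M f) : MF M fun x => - f x :=
  of_rel (fun x y => f x + y = 0) (by fun_prop) fun _ _ => neg_eq_iff_add_eq_zero

@[fun_prop] theorem sub (hf : MF M f) (hg : MF M g) : MF M fun x => f x - g x := by
  simp only [sub_eq_add_neg]; fun_prop

@[fun_prop] theorem nsmul {n : α → ℕ} (hn : MF M n) (hf : MF M f) : MF M fun x => n x • f x :=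
  (of_rec (fun (a : G) (k : ℕ) => k • a) (fun a _ y => y + a)
    (by simp only [zero_smul]; fun_prop) (by fun_prop) fun _ _ => succ_nsmul _ _).comp
    (hf.prodMk hn)

@[fun_prop] theorem sumL {l : α → List G} (hl : MF M l) : MF M fun x => (l x).sum :=
  (of_listRec (fun (_ : ℕ) (l : List G) => l.sum) (fun _ a _ y => a + y) (by fun_prop)
    (by fun_prop) fun _ _ _ => List.sum_cons).comp (g := fun x => (0, l x)) (by fun_prop)

theorem sum_range {F : α → ℕ → G} (hF : MF M fun p : α × ℕ => F p.1 p.2) :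
    MF M fun p : α × ℕ => ∑ i ∈ Finset.range p.2, F p.1 i :=
  of_rec (fun a n => ∑ i ∈ Finset.range n, F a i) (fun a n y => y + F a n)
    (by simp only [Finset.sum_range_zero]; fun_prop) (by fun_prop)
    fun _ _ => Finset.sum_range_succ _ _

end Grp

end MF

theorem zp_inj : Injective fun a : ℤ => (a.toNat, (-a).toNat) := fun a b h => by
  have := Prod.mk.inj h; omega

instance : Cd M ℤ :=
  Cd.ofInj _ zp_inj (MF.of_iff (p := fun p : ℕ × ℕ => p.1 = 0 ∨ p.2 = 0) (by fun_prop) fun p =>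
    ⟨by rintro ⟨a, rfl⟩; omega, fun h => ⟨(p.1 : ℤ) - p.2, Prod.ext (by omega) (by omega)⟩⟩)

theorem MF.zp : MF M fun a : ℤ => (a.toNat, (-a).toNat) := MF.of_code fun _ => rfl

@[fun_prop] theorem MF.toNat {f : α → ℤ} (hf : MF M f) : MF M fun x => (f x).toNat :=
  MF.zp.fst.comp hf

instance : MG M ℤ := ⟨by
  let ng : ℤ → ℕ := fun a => (-a).toNat
  have : MF M ng := MF.zp.snd
  exact MF.of_rel (fun p y => p.1.toNat + p.2.toNat + ng y = y.toNat + ng p.1 + ng p.2)
    (by fun_prop) fun _ _ => by simp only [ng]; omega⟩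

namespace MF

@[fun_prop] theorem zsmul {G : Type v} [AddCommGroup G] [Cd M G] [MG M G] {f : α → G} {n : α → ℤ}
    (hn : MF M n) (hf : MF M f) : MF M fun x => n x • f x :=
  congr (f := fun x => (n x).toNat • f x - (-n x).toNat • f x) (by fun_prop) fun x => by
    rw [← natCast_zsmul, ← natCast_zsmul, ← sub_smul, Int.toNat_sub_toNat_neg]

theorem mulZ {f g : α → ℤ} (hf : MF M f) (hg : MF M g) : MF M fun x => f x * g x := zsmul hf hg

end MF

theorem qp_inj : Injective fun q : ℚ => (q.num.toNat, (-q.num).toNat, q.den) := fun a b h => by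
  simp only [Prod.mk.injEq] at h
  exact Rat.ext (by omega) h.2.2

instance : Cd M ℚ :=
  Cd.ofInj _ qp_inj (MF.of_iff (p := fun p : ℕ × ℕ × ℕ => (p.1 = 0 ∨ p.2.1 = 0) ∧ p.2.2 ≠ 0 ∧
      ∀ d, d ∣ p.1 + p.2.1 → d ∣ p.2.2 → d = 1) (by fun_prop) fun p => by
    constructor
    · rintro ⟨q, rfl⟩
      refine ⟨by simp only []; omega, q.den_nz, fun d h1 h2 => Nat.eq_one_of_dvd_coprimes q.reduced ?_ h2⟩
      rwa [show q.num.natAbs = q.num.toNat + (-q.num).toNat by omega]
    · rintro ⟨h1, h2, h3⟩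
      refine ⟨⟨(p.1 : ℤ) - p.2.1, p.2.2, h2, ?_⟩, Prod.ext (by simp; omega)
        (Prod.ext (by simp; omega) rfl)⟩
      rw [show ((p.1 : ℤ) - p.2.1).natAbs = p.1 + p.2.1 by omega]
      exact h3 _ (Nat.gcd_dvd_left _ _) (Nat.gcd_dvd_right _ _))

theorem cd_rat (q : ℚ) : cd M q = code q := rfl

namespace MF

theorem qp : MF M fun q : ℚ => (q.num.toNat, (-q.num).toNat, q.den) := MF.of_code fun _ => rfl

@[fun_prop] theorem num {f : α → ℚ} (hf : MF M f) : MF M fun x => (f x).num :=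
  (of_inj zp_inj zp (qp.fst.prodMk qp.snd.fst)).comp hf

@[fun_prop] theorem den {f : α → ℚ} (hf : MF M f) : MF M fun x => (f x).den :=
  qp.snd.snd.comp hf

end MF

instance : MG M ℚ := ⟨MF.of_rel (fun p y => y.den • (p.2.den • p.1.num + p.1.den • p.2.num) =
    (p.1.den * p.2.den) • y.num) (by fun_prop) fun p y => by
  have h1 : (p.1.den : ℚ) ≠ 0 := by simp
  have h2 : (p.2.den : ℚ) ≠ 0 := by simp
  have h3 : (y.den : ℚ) ≠ 0 := by simp
  rw [← Int.cast_inj (α := ℚ)]
  conv_lhs => rw [← Rat.num_div_den p.1, ← Rat.num_div_den p.2, ← Rat.num_div_den y]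
  simp only [nsmul_eq_mul]
  push_cast
  rw [div_add_div _ _ h1 h2, div_eq_div_iff (mul_ne_zero h1 h2) h3]
  constructor <;> intro h <;> linarith⟩

namespace MF

variable {f g : α → ℚ}

@[fun_prop] theorem ltQ (hf : MF M f) (hg : MF M g) : MF M fun x => f x < g x :=
  of_iff (p := fun x => 0 < (g x - f x).num.toNat) (by fun_prop) fun x => by
    rw [← sub_pos, ← Rat.num_pos]; omega

@[fun_prop] theorem mulQ (hf : MF M f) (hg : MF M g) : MF M fun x => f x * g x :=
  of_rel (fun x y => (f x).num • g x = (f x).den • y) (by fun_prop) fun x y => by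
    have h1 : ((f x).den : ℚ) ≠ 0 := by simp
    conv_lhs => rw [← Rat.num_div_den (f x)]
    rw [zsmul_eq_mul, nsmul_eq_mul, div_mul_eq_mul_div, div_eq_iff h1, mul_comm y]

@[fun_prop] theorem invQ (hf : MF M f) : MF M fun x => (f x)⁻¹ :=
  of_rel (fun x y => (f x = 0 ∧ y = 0) ∨ f x * y = 1) (by fun_prop) fun x y => by
    by_cases h : f x = 0
    · simp [h, eq_comm]
    · rw [inv_eq_iff_eq_inv, or_iff_right fun e => h e.1]
      exact ⟨fun e => by rw [e, inv_mul_cancel₀ fun c => h (by simp [e, c])],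
        eq_inv_of_mul_eq_one_left⟩

@[fun_prop] theorem natCastQ {n : α → ℕ} (hn : MF M n) : MF M fun x => (n x : ℚ) :=
  congr (f := fun x => n x • (1 : ℚ)) (by fun_prop) (by simp)

end MF

/-- The reals whose cuts are in `M`. -/
def RM (M : ZFSet.{0}) [Mdl M] : AddSubgroup ℝ where
  carrier := {r | MF M fun q : ℚ => (q : ℝ) < r}
  zero_mem' := MF.of_iff (p := fun q : ℚ => q < 0) (by fun_prop) fun _ => Rat.cast_lt_zero
  add_mem' {r s} hr hs := by
    let R := PM.of (M := M) (fun q : ℚ => (q : ℝ) < r) hr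
    let S := PM.of (M := M) (fun q : ℚ => (q : ℝ) < s) hs
    change MF M fun q : ℚ => (q : ℝ) < r + s
    refine MF.of_iff (p := fun q : ℚ => ∃ a, a ∈ R ∧ q - a ∈ S) (by fun_prop) fun q => ⟨fun h => ?_,
      fun ⟨a, (h1 : (a : ℝ) < r), (h2 : ((q - a : ℚ) : ℝ) < s)⟩ => by push_cast at h2; linarith⟩
    obtain ⟨a, h1, h2⟩ := exists_rat_btwn (sub_lt_iff_lt_add.2 h)
    exact ⟨a, h2, show ((q - a : ℚ) : ℝ) < s by push_cast; linarith⟩
  neg_mem' {r} hr := by
    let R := PM.of (M := M) (fun q : ℚ => (q : ℝ) < r) hr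
    change MF M fun q : ℚ => (q : ℝ) < -r
    refine MF.of_iff (p := fun q : ℚ => ∃ a, a ∉ R ∧ a < -q) (by fun_prop) fun q => ⟨fun h => ?_,
      fun ⟨a, (h1 : ¬ (a : ℝ) < r), h2⟩ => ?_⟩
    · obtain ⟨a, h1, h2⟩ := exists_rat_btwn (lt_neg.1 h)
      exact ⟨a, h1.not_gt, by exact_mod_cast h2⟩
    · have : (a : ℝ) < -q := by exact_mod_cast h2
      linarith [not_lt.1 h1]

/-- The cut of a real. -/
def cutS (r : RM M) : PM M ℚ := PM.of (fun q => (q : ℝ) < r.1) r.2

theorem cutS_inj : Injective (cutS (M := M)) := fun _ _ h =>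
  Subtype.ext (eq_of_forall_rat_lt_iff_lt fun q => iff_of_eq (congrArg (fun s => q ∈ s) h))

noncomputable instance : Cd M (RM M) :=
  Cd.ofInj cutS cutS_inj (MF.of_iff (p := fun s : PM M ℚ => (∃ a, a ∈ s) ∧
      (∃ b, ∀ a, a ∈ s → a < b) ∧ ∀ a, a ∈ s ↔ ∃ b, b ∈ s ∧ a < b) (by fun_prop) fun s => by
    constructor
    · rintro ⟨r, rfl⟩
      obtain ⟨b, hb⟩ := exists_rat_gt r.1
      refine ⟨exists_rat_lt r.1, ⟨b, fun a ha => by exact_mod_cast lt_trans ha hb⟩, fun a =>
        ⟨fun ha => ?_, fun ⟨b, h1, h2⟩ => lt_trans (Rat.cast_lt.2 h2 : (a : ℝ) < b) h1⟩⟩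
      obtain ⟨c, h1, h2⟩ := exists_rat_btwn (show (a : ℝ) < r.1 from ha)
      exact ⟨c, h2, by exact_mod_cast h1⟩
    · rintro ⟨⟨a, ha⟩, ⟨b, hb⟩, h⟩
      have key : ∀ q : ℚ, (q : ℝ) < sSup ((↑) '' s.set) ↔ q ∈ s := fun q => by
        rw [lt_csSup_iff (s := ((↑) '' s.set : Set ℝ))
          ⟨b, by rintro _ ⟨c, hc, rfl⟩; exact_mod_cast (hb c hc).le⟩ ⟨_, a, ha, rfl⟩, h q]
        exact ⟨by rintro ⟨_, ⟨c, h1, rfl⟩, h2⟩; exact ⟨c, h1, by exact_mod_cast h2⟩,
          fun ⟨c, h1, h2⟩ => ⟨_, ⟨c, h1, rfl⟩, by exact_mod_cast h2⟩⟩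
      exact ⟨⟨_, s.df.of_iff key⟩, PM.ext' key⟩)

theorem MF.cutS : MF M (cutS (M := M)) := MF.of_code fun _ => rfl

@[fun_prop] theorem MF.ltQR {f : α → ℚ} {g : α → RM M} (hf : MF M f) (hg : MF M g) :
    MF M fun x => (f x : ℝ) < (g x).1 := hf.mem (MF.cutS.comp hg)

theorem MF.toRM {f : α → RM M} (h : MF M fun p : α × ℚ => (p.2 : ℝ) < (f p.1).1) : MF M f :=
  MF.of_inj cutS_inj MF.cutS (MF.toPM h)

instance : MG M (RM M) := ⟨MF.toRM (MF.of_iff (p := fun p : (RM M × RM M) × ℚ =>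
    ∃ a : ℚ, (a : ℝ) < p.1.1.1 ∧ ((p.2 - a : ℚ) : ℝ) < p.1.2.1) (by fun_prop) fun p => by
  rw [AddSubgroup.coe_add]
  refine ⟨fun h => ?_, fun ⟨a, h1, h2⟩ => by push_cast at h2; linarith⟩
  obtain ⟨a, h1, h2⟩ := exists_rat_btwn (sub_lt_iff_lt_add.2 h)
  exact ⟨a, h2, by push_cast; linarith⟩)⟩

/-- Rationals as reals of `M`. -/
def rq (q : ℚ) : RM M :=
  ⟨q, MF.of_iff (p := fun a : ℚ => a < q) (by fun_prop) fun _ => Rat.cast_lt⟩

@[fun_prop] theorem MF.rq {f : α → ℚ} (hf : MF M f) : MF M fun x => (rq (f x) : RM M) :=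
  MF.toRM (MF.of_iff (p := fun p : α × ℚ => p.2 < f p.1) (by fun_prop) fun _ => Rat.cast_lt)

/-- Coding through a surjection whose kernel is in `M`. -/
@[reducible] noncomputable def Cd.ofSurj {δ : Type w} (π : α → δ) (hs : Surjective π)
    (h : MF M fun p : α × α => π p.1 = π p.2) : Cd M δ :=
  Cd.ofInj (fun x => PM.lam (fun a b => π a = π b) h (surjInv hs x))
    (fun x y e => by
      simpa [surjInv_eq] using congrArg (fun s => surjInv hs y ∈ s) e)
    (MF.of_iff (p := fun s => ∃ a, PM.lam (fun a b => π a = π b) h a = s) (by fun_prop) fun s =>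
      ⟨fun ⟨x, e⟩ => ⟨_, e⟩, fun ⟨a, e⟩ => ⟨π a, (PM.ext' (by simp [surjInv_eq])).trans e⟩⟩)

theorem MF.ofSurj {δ : Type w} (π : α → δ) (hs : Surjective π)
    (h : MF M fun p : α × α => π p.1 = π p.2) : @MF M _ α δ _ (Cd.ofSurj π hs h) π := by
  let _ := Cd.ofSurj π hs h
  refine MF.of_inj (f := fun x => PM.lam (fun a b => π a = π b) h (surjInv hs x)) (fun x y e => by
      simpa [surjInv_eq] using congrArg (fun s => surjInv hs y ∈ s) e) (MF.of_code fun _ => rfl) ?_
  exact MF.toPM (h.of_iff (by simp [surjInv_eq]))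

/-- The circle group of `M`. -/
def TM (M : ZFSet.{0}) [Mdl M] : AddSubgroup UnitAddCircle :=
  (RM M).map (QuotientAddGroup.mk' _)

/-- The projection onto the circle. -/
def pr (r : RM M) : TM M := ⟨(r.1 : UnitAddCircle), r.1, r.2, rfl⟩

theorem pr_surj : Surjective (pr (M := M)) := fun ⟨_, r, h, e⟩ => ⟨⟨r, h⟩, Subtype.ext e⟩

theorem pr_ker : MF M fun p : RM M × RM M => pr p.1 = pr p.2 :=
  MF.of_iff (p := fun p => ∃ n : ℤ, n • rq 1 = p.1 - p.2) (by fun_prop) fun p => by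
    rw [Subtype.ext_iff, ← sub_eq_zero]
    simp only [pr, ← AddCircle.coe_sub, AddCircle.coe_eq_zero_iff, Subtype.ext_iff]
    simp [rq]

noncomputable instance : Cd M (TM M) := Cd.ofSurj pr pr_surj pr_ker

@[fun_prop] theorem MF.pr {f : α → RM M} (hf : MF M f) : MF M fun x => pr (f x) :=
  (MF.ofSurj _ pr_surj pr_ker).comp hf

instance : MG M (TM M) := ⟨MF.of_rel (fun p z => ∃ a b, pr a = p.1 ∧ pr b = p.2 ∧ pr (a + b) = z)
  (by fun_prop) fun p z => ⟨fun e => by
    obtain ⟨a, ha⟩ := pr_surj p.1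
    obtain ⟨b, hb⟩ := pr_surj p.2
    exact ⟨a, b, ha, hb, by rw [← e, ← ha, ← hb]; rfl⟩, by
    rintro ⟨a, b, h1, h2, rfl⟩; rw [← h1, ← h2]; rfl⟩⟩

theorem baer : Module.Baer ℤ (TM M) := by
  have : DivisibleBy (TM M) ℕ := divisibleByOfSMulRightSurj _ _ fun {n} hn x => by
    obtain ⟨r, rfl⟩ := pr_surj x
    have h : (0 : ℝ) < n := by positivity
    have h' : MF M fun q : ℚ => (q : ℝ) < r.1 / n :=
      MF.of_iff (p := fun q : ℚ => ((n * q : ℚ) : ℝ) < r.1) (by fun_prop)
        fun q => by push_cast; rw [lt_div_iff₀' h]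
    refine ⟨pr ⟨r.1 / n, h'⟩, Subtype.ext ?_⟩
    simp only [pr, AddSubmonoidClass.coe_nsmul, ← AddCircle.coe_nsmul, nsmul_eq_mul,
      mul_div_cancel₀ _ h.ne']
  have := AddGroup.divisibleByIntOfDivisibleByNat (TM M)
  exact Module.Baer.of_divisible _

@[fun_prop] theorem MF.norm {f : α → TM M} {g : α → ℚ} (hf : MF M f) (hg : MF M g) :
    MF M fun x => ‖f x‖ < (g x : ℝ) :=
  MF.of_iff (p := fun x => ∃ r, InModel.pr r = f x ∧ ((-g x : ℚ) : ℝ) < r.1 ∧
      ((-g x : ℚ) : ℝ) < (-r).1) (by fun_prop) fun x => by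
    obtain ⟨r, hr⟩ := pr_surj (f x)
    rw [← hr]
    constructor
    · intro h
      have h' : |r.1 - round r.1| < g x := UnitAddCircle.norm_eq ▸ h
      have e : (r - round r.1 • InModel.rq 1).1 = r.1 - round r.1 := by simp [InModel.rq]
      refine ⟨r - round r.1 • InModel.rq 1, Subtype.ext ?_, ?_⟩
      · simp only [InModel.pr, e, AddCircle.coe_sub, sub_eq_self, AddCircle.coe_eq_zero_iff]
        exact ⟨round r.1, by simp⟩
      · rw [AddSubgroup.coe_neg, e]; push_cast; constructor <;> linarith [abs_lt.1 h']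
    · rintro ⟨s, e, h1, h2⟩
      rw [← e]
      refine lt_of_le_of_lt (QuotientAddGroup.norm_mk_le_norm (m := s.1)) (abs_lt.2 ?_)
      rw [AddSubgroup.coe_neg] at h2
      push_cast at h1 h2
      constructor <;> linarith

/-- The point `1 / n` of the circle. -/
noncomputable def un (M : ZFSet.{0}) [Mdl M] (n : ℕ) : TM M := pr (rq (n : ℚ)⁻¹)

@[fun_prop] theorem MF.un {f : α → ℕ} (hf : MF M f) : MF M fun x => un M (f x) := by
  unfold InModel.un; fun_prop

theorem un_ord {n : ℕ} (h : 0 < n) : addOrderOf (un M n) = n := by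
  rw [← AddSubgroup.addOrderOf_coe]
  simpa [un, pr, rq] using AddCircle.addOrderOf_period_div (p := (1 : ℝ)) h

theorem exists_un {n : ℕ} (h : 0 < n) {x : TM M} (hx : n • x = 0) : ∃ j < n, x = j • un M n := by
  obtain ⟨j, h1, h2⟩ := (AddCircle.nsmul_eq_zero_iff h).1 (congrArg Subtype.val hx)
  refine ⟨j, h1, Subtype.ext (h2.symm.trans ?_)⟩
  rw [AddSubmonoidClass.coe_nsmul, un, pr, ← AddCircle.coe_nsmul]
  simp [rq, div_eq_mul_inv]

theorem exists_tq (M : ZFSet.{0}) [Mdl M] (q : ℕ) : ∃ t : FM M ℕ Bool → TM M, MF M t ∧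
    (∀ b, q • t b = 0) ∧ (∀ x, q • x = 0 → ∀ ε > 0, ∃ b, ‖t b - x‖ < ε) ∧
    ∀ (b : ℕ → FM M ℕ Bool) (b' : FM M ℕ Bool), (∀ i, ∀ᶠ n in atTop, (b n).fn i = b'.fn i) →
      Tendsto (fun n => t (b n)) atTop (𝓝 (t b')) := by
  rcases q.eq_zero_or_pos with rfl | hq
  · let w : ℕ → ℚ := fun n => ((2 ^ (n + 1) : ℕ) : ℚ)⁻¹
    have hw : MF M w := by simp only [w]; fun_prop
    have ew : ∀ n, (w n : ℝ) = 1 / 2 / 2 ^ n := fun n => by simp [w, pow_succ, div_eq_mul_inv]
    let s : FM M ℕ Bool → ℕ → ℚ := fun b n => if b.fn n = true then w n else 0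
    have hs : MF M fun p : FM M ℕ Bool × ℕ => s p.1 p.2 := by simp only [s]; fun_prop
    have h0 : ∀ b n, (0 : ℝ) ≤ s b n ∧ (s b n : ℝ) ≤ 1 / 2 / 2 ^ n := fun b n => by
      simp only [s]; split_ifs <;> simp only [ew, Rat.cast_zero, le_refl, and_true, true_and] <;>
        positivity
    have su : ∀ b, Summable fun n => (s b n : ℝ) := fun b =>
      (summable_geometric_two' 1).of_nonneg_of_le (fun n => (h0 b n).1) fun n => (h0 b n).2
    let ps : FM M ℕ Bool → ℕ → ℚ := fun b n => ∑ i ∈ Finset.range n, s b i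
    have hp : MF M fun p : FM M ℕ Bool × ℕ => ps p.1 p.2 := MF.sum_range hs
    have key : ∀ b (a : ℚ), (a : ℝ) < ∑' n, (s b n : ℝ) ↔ ∃ n, a < ps b n := fun b a => by
      constructor
      · intro h
        obtain ⟨n, hn⟩ := ((su b).hasSum.tendsto_sum_nat.eventually (lt_mem_nhds h)).exists
        exact ⟨n, by simp only [ps]; exact_mod_cast hn⟩
      · rintro ⟨n, hn⟩
        refine lt_of_lt_of_le ?_ ((su b).sum_le_tsum (Finset.range n) fun i _ => (h0 b i).1)
        simp only [ps] at hn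
        exact_mod_cast hn
    let r : FM M ℕ Bool → RM M := fun b => ⟨∑' n, (s b n : ℝ),
      MF.of_iff (p := fun a : ℚ => ∃ n, a < ps b n) (by fun_prop) (key b)⟩
    have hr : MF M r := MF.toRM (MF.of_iff (p := fun p : FM M ℕ Bool × ℚ => ∃ n, p.2 < ps p.1 n)
      (by fun_prop) fun p => key _ _)
    refine ⟨fun b => pr (r b), by fun_prop, fun _ => zero_smul _ _, fun x _ ε hε => ?_,
      fun b b' h => ?_⟩
    · obtain ⟨y, hy, e⟩ : ∃ y ∈ Set.Ico (0 : ℝ) 1, (y : UnitAddCircle) = x.1 :=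
        AddCircle.eq_coe_Ico x.1
      have : ∀ n, ∃ l : List ℕ, (∀ i ∈ l, i < n) ∧
          y - ∑ i ∈ Finset.range n, (if i ∈ l then (w i : ℝ) else 0) ∈ Set.Icc 0 (1 / 2 ^ n) := by
        intro n
        induction n with
        | zero => exact ⟨[], by simp, by simpa using Set.Ico_subset_Icc_self hy⟩
        | succ n ih =>
          obtain ⟨l, h1, h2, h3⟩ := ih
          have h4 : n ∉ l := fun e => (h1 n e).false
          have h5 : (1 : ℝ) / 2 ^ (n + 1) = w n ∧ (1 : ℝ) / 2 ^ n = 2 * w n := by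
            rw [ew, pow_succ]; constructor <;> field_simp
          by_cases c : y - ∑ i ∈ Finset.range n, (if i ∈ l then (w i : ℝ) else 0) ≤ w n
          · exact ⟨l, fun i hi => (h1 i hi).trans n.lt_succ_self, by
              rw [Finset.sum_range_succ, if_neg h4, add_zero, h5.1]; exact ⟨h2, c⟩⟩
          · refine ⟨n :: l, List.forall_mem_cons.2 ⟨n.lt_succ_self, fun i hi =>
              (h1 i hi).trans n.lt_succ_self⟩, ?_⟩
            rw [Finset.sum_range_succ, if_pos List.mem_cons_self, h5.1, Finset.sum_congr rfl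
              fun i hi => if_congr (List.mem_cons.trans (or_iff_right
                (Finset.mem_range.1 hi).ne)) rfl rfl]
            constructor <;> linarith [h5.2]
      obtain ⟨n, hn⟩ := exists_pow_lt_of_lt_one hε (one_half_lt_one (α := ℝ))
      obtain ⟨l, h1, h2, h3⟩ := this n
      let b : FM M ℕ Bool := ⟨fun i => decide (i ∈ l), by fun_prop⟩
      have e1 : (r b).1 = ∑ i ∈ Finset.range n, (if i ∈ l then (w i : ℝ) else 0) := by
        refine (tsum_eq_sum (s := Finset.range n) fun i hi => ?_).trans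
          (Finset.sum_congr rfl fun i _ => ?_)
        · simpa [s, b, w] using fun e => hi (Finset.mem_range.2 (h1 i e))
        · by_cases c : i ∈ l <;> simp [s, b, c]
      refine ⟨b, lt_of_le_of_lt ?_ hn⟩
      have e2 : (pr (r b) - x).1 = (((r b).1 - y : ℝ) : UnitAddCircle) := by rw [AddCircle.coe_sub, e]; rfl
      rw [← AddSubgroup.norm_coe, e2]
      refine QuotientAddGroup.norm_mk_le_norm.trans ?_
      rw [Real.norm_eq_abs, abs_sub_comm, e1, abs_of_nonneg h2, one_div_pow]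
      exact h3
    · refine tendsto_subtype_rng.2 ((AddCircle.continuous_mk' 1).continuousAt.tendsto.comp
        (tendsto_tsum_of_dominated_convergence (summable_geometric_two' 1) (fun k => ?_)
          (.of_forall fun n k => ?_)))
      · exact tendsto_const_nhds.congr' ((h k).mono fun n e => by simp only [s, e])
      · rw [Real.norm_eq_abs, abs_of_nonneg (h0 _ _).1]; exact (h0 _ _).2
  · let s : FM M ℕ Bool → ℕ → TM M := fun b n => if b.fn n = true then un M q else 0
    have hs : MF M fun p : FM M ℕ Bool × ℕ => s p.1 p.2 := by simp only [s]; fun_prop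
    refine ⟨fun b => ∑ i ∈ Finset.range q, s b i, (MF.sum_range hs).comp (g := fun b => (b, q))
      (by fun_prop), fun b => ?_, fun x hx ε hε => ?_, fun b b' h => ?_⟩
    · rw [Finset.smul_sum]
      refine Finset.sum_eq_zero fun i _ => ?_
      simp only [s]
      split_ifs
      exacts [addOrderOf_dvd_iff_nsmul_eq_zero.1 (un_ord hq).dvd, smul_zero _]
    · obtain ⟨j, h1, rfl⟩ := exists_un hq hx
      refine ⟨⟨fun i => decide (i < j), by fun_prop⟩, ?_⟩
      have : (Finset.range q).filter (· < j) = Finset.range j := by ext; simp; omega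
      simpa [s, ← Finset.sum_filter, this] using hε
    · exact tendsto_finsetSum _ fun k _ =>
        tendsto_const_nhds.congr' ((h k).mono fun n e => by simp only [s, e])

end Pool.Agent.Shared.InModel
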