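import Mathlib
import Pool.Agent.Lib.MP_053343_lc.Canon

/-!
Typed reasoning inside a transitive model `M` of ZF: types coded by elements of `M`, functions
and predicates whose graphs are in `M`, with a `fun_prop` interface.
-/

namespace Pool.Agent.Shared.InModel

open Function Pool.Agent.Lib.MP_053343_lc

universe u v w

/-- Formulas with atomic pair relations. -/
inductive F0 : Type
  | mem (i j : ℕ) : F0
  | eq (i j : ℕ) : F0
  | pr (i j k : ℕ) : F0
  | ap (i j k : ℕ) : F0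
  | neg (φ : F0) : F0
  | and (φ ψ : F0) : F0
  | ex (φ : F0) : F0

def F0.S (M : ZFSet.{0}) : F0 → List ZFSet.{0} → Prop
  | .mem i j, l => l.getD i ∅ ∈ l.getD j ∅
  | .eq i j, l => l.getD i ∅ = l.getD j ∅
  | .pr i j k, l => l.getD i ∅ = ZFSet.pair (l.getD j ∅) (l.getD k ∅)
  | .ap i j k, l => ZFSet.pair (l.getD j ∅) (l.getD k ∅) ∈ l.getD i ∅
  | .neg φ, l => ¬ φ.S M l
  | .and φ ψ, l => φ.S M l ∧ ψ.S M l
  | .ex φ, l => ∃ x ∈ M, φ.S M (x :: l)

class Mdl (M : ZFSet.{0}) : Prop where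
  zf : ModelZF M

variable {M : ZFSet.{0}} [Mdl M]

theorem tr {a x : ZFSet} (ha : a ∈ M) (hx : x ∈ a) : x ∈ M := Mdl.zf.trans a ha hx

theorem nat_mem (n : ℕ) : nat n ∈ M := tr Mdl.zf.inf (mem_omega.2 ⟨n, rfl⟩)

theorem empty_mem : (∅ : ZFSet) ∈ M := nat_mem 0

theorem sing_mem {a : ZFSet} (ha : a ∈ M) : ({a} : ZFSet) ∈ M := by
  simpa using Mdl.zf.pair a ha a ha

theorem pair_mem {a b : ZFSet} (ha : a ∈ M) (hb : b ∈ M) : ZFSet.pair a b ∈ M :=
  Mdl.zf.pair _ (sing_mem ha) _ (Mdl.zf.pair a ha b hb)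

theorem union_mem {a b : ZFSet} (ha : a ∈ M) (hb : b ∈ M) : a ∪ b ∈ M :=
  Mdl.zf.union _ (Mdl.zf.pair a ha b hb)

def upF (i j k : ℕ) : Fml :=
  .neg (.ex (.neg (.and (.neg (.and (.mem 0 (i + 1)) (.and (.neg (.eq 0 (j + 1)))
    (.neg (.eq 0 (k + 1)))))) (.and (.neg (.and (.eq 0 (j + 1)) (.neg (.mem 0 (i + 1)))))
    (.neg (.and (.eq 0 (k + 1)) (.neg (.mem 0 (i + 1)))))))))

def prF (i j k : ℕ) : Fml :=
  .ex (.ex (.and (upF 1 (j + 2) (j + 2)) (.and (upF 0 (j + 2) (k + 2)) (upF (i + 2) 1 0))))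

theorem getD_mem {l : List ZFSet} (h : ∀ x ∈ l, x ∈ M) (i : ℕ) : l.getD i ∅ ∈ M := by
  rw [List.getD_eq_getElem?_getD]
  cases e : l[i]? with
  | none => exact empty_mem
  | some a => exact h a (List.mem_of_getElem? e)

theorem sat_upF {l : List ZFSet} (h : ∀ x ∈ l, x ∈ M) (i j k : ℕ) :
    Sat M (upF i j k) l ↔ l.getD i ∅ = {l.getD j ∅, l.getD k ∅} := by
  simp only [upF, Sat, List.getD_cons_zero, List.getD_cons_succ]
  constructor
  · intro H
    push Not at H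
    ext z
    rw [ZFSet.mem_pair]
    constructor
    · intro hz
      have := (H z (tr (getD_mem h i) hz)).1 hz
      tauto
    · rintro (rfl | rfl)
      · exact (H _ (getD_mem h j)).2.1 rfl
      · exact (H _ (getD_mem h k)).2.2 rfl
  · intro H
    rw [H]
    simp only [ZFSet.mem_pair]
    tauto

theorem sat_prF {l : List ZFSet} (h : ∀ x ∈ l, x ∈ M) (i j k : ℕ) :
    Sat M (prF i j k) l ↔ l.getD i ∅ = ZFSet.pair (l.getD j ∅) (l.getD k ∅) := by
  have key : ∀ a ∈ M, ∀ b ∈ M, ∀ x ∈ b :: a :: l, x ∈ M := fun a ha b hb => by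
    simpa [ha, hb] using h
  simp only [prF, Sat]
  constructor
  · rintro ⟨a, ha, b, hb, h1, h2, h3⟩
    rw [sat_upF (key a ha b hb)] at h1 h2 h3
    simp only [List.getD_cons_zero, List.getD_cons_succ] at h1 h2 h3
    rw [h3, h1, h2]
    simp [ZFSet.pair]
  · intro H
    have ha := sing_mem (getD_mem h j)
    have hb := Mdl.zf.pair _ (getD_mem h j) _ (getD_mem h k)
    refine ⟨_, ha, _, hb, ?_⟩
    simp only [sat_upF (key _ ha _ hb), List.getD_cons_zero, List.getD_cons_succ, H]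
    simp [ZFSet.pair]

theorem F0.toFml (φ : F0) : ∃ ψ : Fml, ∀ l : List ZFSet, (∀ x ∈ l, x ∈ M) →
    (Sat M ψ l ↔ φ.S M l) := by
  induction φ with
  | mem i j => exact ⟨.mem i j, fun _ _ => Iff.rfl⟩
  | eq i j => exact ⟨.eq i j, fun _ _ => Iff.rfl⟩
  | pr i j k => exact ⟨prF i j k, fun _ h => sat_prF h i j k⟩
  | ap i j k =>
    refine ⟨.ex (.and (prF 0 (j + 1) (k + 1)) (.mem 0 (i + 1))), fun l h => ?_⟩
    simp only [Sat, F0.S]
    constructor
    · rintro ⟨x, hx, h1, h2⟩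
      rw [sat_prF (by simpa [hx] using h)] at h1
      simp only [List.getD_cons_zero, List.getD_cons_succ] at h1 h2
      rwa [← h1]
    · intro H
      have hx := pair_mem (getD_mem h j) (getD_mem h k)
      exact ⟨_, hx, (sat_prF (List.forall_mem_cons.2 ⟨hx, h⟩) _ _ _).2 (by simp), by simpa using H⟩
  | neg φ ih => obtain ⟨ψ, h⟩ := ih; exact ⟨.neg ψ, fun l hl => not_congr (h l hl)⟩
  | and φ φ' ih ih' =>
    obtain ⟨ψ, h⟩ := ih
    obtain ⟨ψ', h'⟩ := ih'
    exact ⟨.and ψ ψ', fun l hl => and_congr (h l hl) (h' l hl)⟩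
  | ex φ ih =>
    obtain ⟨ψ, h⟩ := ih
    exact ⟨.ex ψ, fun l hl => exists_congr fun x => and_congr_right fun hx =>
      h _ (by simpa [hx] using hl)⟩

theorem sep0 (φ : F0) (l : List ZFSet) (hl : ∀ x ∈ l, x ∈ M) {a : ZFSet} (ha : a ∈ M) :
    ∃ b ∈ M, ∀ z, z ∈ b ↔ z ∈ a ∧ φ.S M (z :: l) := by
  obtain ⟨ψ, h⟩ := φ.toFml (M := M)
  refine ⟨_, Mdl.zf.sep ψ l hl a ha, fun z => ?_⟩
  rw [ZFSet.mem_sep]
  exact and_congr_right fun hz => h _ (by simpa [tr ha hz] using hl)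

/-- A coding of the type `α` by the elements of a member of `M`. -/
class Cd (M : ZFSet.{0}) (α : Type u) where
  c : α → ZFSet.{0}
  inj : Injective c
  ex : ∃ a ∈ M, ∀ z, z ∈ a ↔ ∃ x, c x = z

/-- The code of an element. -/
abbrev cd (M : ZFSet.{0}) {α : Type u} [Cd M α] (x : α) : ZFSet.{0} := Cd.c M x

variable {α : Type u} {β : Type v} {γ : Type w} [Cd M α] [Cd M β] [Cd M γ]

theorem cd_inj {x y : α} : cd M x = cd M y ↔ x = y := (Cd.inj (M := M)).eq_iff

theorem cd_mem (x : α) : cd M x ∈ M := by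
  obtain ⟨a, ha, h⟩ := Cd.ex (M := M) (α := α)
  exact tr ha ((h _).2 ⟨x, rfl⟩)

instance : Cd M (α × β) where
  c p := ZFSet.pair (cd M p.1) (cd M p.2)
  inj p q h := by
    rw [ZFSet.pair_inj, cd_inj, cd_inj] at h
    exact Prod.ext h.1 h.2
  ex := by
    obtain ⟨a, ha, h⟩ := Cd.ex (M := M) (α := α)
    obtain ⟨b, hb, h'⟩ := Cd.ex (M := M) (α := β)
    obtain ⟨p, hp, h1⟩ := Mdl.zf.power _ (union_mem ha hb)
    obtain ⟨q, hq, h2⟩ := Mdl.zf.power _ hp
    obtain ⟨r, hr, h3⟩ := sep0 (.ex (.ex (.and (.pr 2 1 0) (.and (.mem 1 3) (.mem 0 4)))))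
      [a, b] (by simp [ha, hb]) hq
    refine ⟨r, hr, fun z => (h3 z).trans ?_⟩
    simp only [F0.S, List.getD_cons_zero, List.getD_cons_succ, h, h']
    constructor
    · rintro ⟨-, _, -, _, -, rfl, ⟨x, rfl⟩, y, rfl⟩
      exact ⟨(x, y), rfl⟩
    · rintro ⟨⟨x, y⟩, rfl⟩
      refine ⟨(h2 _ (pair_mem (cd_mem x) (cd_mem y))).2 fun t ht => ?_, _, cd_mem x, _, cd_mem y,
        rfl, ⟨x, rfl⟩, y, rfl⟩
      refine (h1 t (tr (pair_mem (cd_mem x) (cd_mem y)) ht)).2 fun s hs => ?_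
      have hx := (h _).2 ⟨x, rfl⟩
      have hy := (h' _).2 ⟨y, rfl⟩
      simp only [ZFSet.pair, ZFSet.mem_pair] at ht
      rcases ht with rfl | rfl
      · rw [ZFSet.mem_singleton.1 hs]; exact ZFSet.mem_union.2 (Or.inl hx)
      · rcases ZFSet.mem_pair.1 hs with rfl | rfl
        · exact ZFSet.mem_union.2 (Or.inl hx)
        · exact ZFSet.mem_union.2 (Or.inr hy)

theorem cd_prod (p : α × β) : cd M p = ZFSet.pair (cd M p.1) (cd M p.2) := rfl

open Classical in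
noncomputable instance : Cd M Prop where
  c p := if p then {∅} else ∅
  inj p q h := by
    have ne : ({∅} : ZFSet.{0}) ≠ ∅ := fun e =>
      ZFSet.notMem_empty ∅ (e.subst (motive := fun y => ∅ ∈ y) (ZFSet.mem_singleton.2 rfl))
    by_cases hp : p <;> by_cases hq : q <;> simp [hp, hq, ne, ne.symm] at h ⊢
  ex := ⟨{{∅}, ∅}, Mdl.zf.pair _ (sing_mem empty_mem) _ empty_mem, fun z => by
    rw [ZFSet.mem_pair]
    constructor
    · rintro (rfl | rfl)
      · exact ⟨True, by simp⟩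
      · exact ⟨False, by simp⟩
    · rintro ⟨p, rfl⟩
      by_cases hp : p <;> simp [hp]⟩

/-- The set of codes of the elements satisfying `P` is in `M`. -/
def Df (M : ZFSet.{0}) {α : Type u} [Cd M α] (P : α → Prop) : Prop :=
  ∃ a ∈ M, ∀ z, z ∈ a ↔ ∃ x, P x ∧ cd M x = z

/-- The graph of `f` is in `M`. -/
@[fun_prop] def MF (M : ZFSet.{0}) [Mdl M] {α : Type u} {β : Type v} [Cd M α] [Cd M β]
    (f : α → β) : Prop :=
  Df M fun p : α × β => f p.1 = p.2

theorem Df.intro {P : α → Prop} (φ : F0) (l : List ZFSet) (hl : ∀ x ∈ l, x ∈ M)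
    (h : ∀ x, φ.S M (cd M x :: l) ↔ P x) : Df M P := by
  obtain ⟨a, ha, h1⟩ := Cd.ex (M := M) (α := α)
  obtain ⟨b, hb, h2⟩ := sep0 φ l hl ha
  refine ⟨b, hb, fun z => (h2 z).trans ?_⟩
  rw [h1]
  constructor
  · rintro ⟨⟨x, rfl⟩, hx⟩
    exact ⟨x, (h x).1 hx, rfl⟩
  · rintro ⟨x, hx, rfl⟩
    exact ⟨⟨x, rfl⟩, (h x).2 hx⟩

theorem Df.and {P Q : α → Prop} (hP : Df M P) (hQ : Df M Q) : Df M fun x => P x ∧ Q x := by
  obtain ⟨a, ha, h⟩ := hP
  obtain ⟨b, hb, h'⟩ := hQ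
  exact Df.intro (.and (.mem 0 1) (.mem 0 2)) [a, b] (by simp [ha, hb]) fun x => by
    simp [F0.S, h, h', cd_inj]

theorem Df.not {P : α → Prop} (hP : Df M P) : Df M fun x => ¬ P x := by
  obtain ⟨a, ha, h⟩ := hP
  exact Df.intro (.neg (.mem 0 1)) [a] (by simp [ha]) fun x => by simp [F0.S, h, cd_inj]

theorem Df.ex {R : α → β → Prop} (hR : Df M fun p : α × β => R p.1 p.2) :
    Df M fun x => ∃ y, R x y := by
  obtain ⟨a, ha, h⟩ := hR
  refine Df.intro (.ex (.ap 2 1 0)) [a] (by simp [ha]) fun x => ?_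
  simp only [F0.S, List.getD_cons_zero, List.getD_cons_succ, h, cd_prod, ZFSet.pair_inj, cd_inj]
  exact ⟨fun ⟨_, _, p, h1, h2, _⟩ => ⟨p.2, h2 ▸ h1⟩, fun ⟨y, hy⟩ => ⟨_, cd_mem y, (x, y), hy, rfl, rfl⟩⟩

theorem Df.comp {P : β → Prop} {f : α → β} (hP : Df M P) (hf : MF M f) :
    Df M fun x => P (f x) := by
  obtain ⟨a, ha, h⟩ := hP
  obtain ⟨b, hb, h'⟩ := hf
  refine Df.intro (.ex (.and (.ap 3 1 0) (.mem 0 2))) [a, b] (by simp [ha, hb]) fun x => ?_
  simp only [F0.S, List.getD_cons_zero, List.getD_cons_succ, h, h', cd_prod, ZFSet.pair_inj, cd_inj]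
  constructor
  · rintro ⟨_, -, ⟨p, h1, rfl, rfl⟩, y, hy, e⟩
    rwa [h1, ← cd_inj.1 e]
  · exact fun hx => ⟨_, cd_mem (f x), ⟨(x, f x), rfl, rfl, rfl⟩, _, hx, rfl⟩

namespace MF

theorem of_code {f : α → β} (h : ∀ x, cd M (f x) = cd M x) : MF M f := by
  refine Df.intro (.ex (.pr 1 0 0)) [] (by simp) fun x => ?_
  simp only [F0.S, List.getD_cons_zero, List.getD_cons_succ, cd_prod, ZFSet.pair_inj, ← h]
  exact ⟨fun ⟨_, _, h1, h2⟩ => cd_inj.1 (h1.trans h2.symm), fun e => ⟨_, cd_mem _, rfl, by rw [e]⟩⟩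

@[fun_prop] theorem id' : MF M fun x : α => x := of_code fun _ => rfl

@[fun_prop] theorem const (b : β) : MF M fun _ : α => b := by
  refine Df.intro (.ex (.pr 1 0 2)) [cd M b] (by simp [cd_mem]) fun x => ?_
  simp only [F0.S, List.getD_cons_zero, List.getD_cons_succ, cd_prod, ZFSet.pair_inj, cd_inj]
  exact ⟨fun ⟨_, _, _, h2⟩ => h2.symm, fun e => ⟨_, cd_mem _, rfl, e.symm⟩⟩

@[fun_prop] theorem fst {f : α → β × γ} (hf : MF M f) : MF M fun x => (f x).1 := by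
  obtain ⟨a, ha, h⟩ := hf
  refine Df.intro (.ex (.ex (.ex (.ex (.and (.pr 4 3 2) (.and (.pr 0 2 1) (.ap 5 3 0)))))))
    [a] (by simp [ha]) fun x => ?_
  simp only [F0.S, List.getD_cons_zero, List.getD_cons_succ, h, cd_prod, ZFSet.pair_inj, cd_inj]
  constructor
  · rintro ⟨_, -, _, -, _, -, _, -, ⟨rfl, rfl⟩, rfl, p, h1, h2, h3⟩
    rw [ZFSet.pair_inj, cd_inj] at h3
    rw [← cd_inj.1 h2, h1, h3.1]
  · intro e
    exact ⟨_, cd_mem _, _, cd_mem _, _, cd_mem (f x.1).2, _, pair_mem (cd_mem _) (cd_mem _),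
      ⟨rfl, rfl⟩, rfl, (x.1, f x.1), rfl, rfl, by rw [e]⟩

@[fun_prop] theorem snd {f : α → β × γ} (hf : MF M f) : MF M fun x => (f x).2 := by
  obtain ⟨a, ha, h⟩ := hf
  refine Df.intro (.ex (.ex (.ex (.ex (.and (.pr 4 3 2) (.and (.pr 0 1 2) (.ap 5 3 0)))))))
    [a] (by simp [ha]) fun x => ?_
  simp only [F0.S, List.getD_cons_zero, List.getD_cons_succ, h, cd_prod, ZFSet.pair_inj, cd_inj]
  constructor
  · rintro ⟨_, -, _, -, _, -, _, -, ⟨rfl, rfl⟩, rfl, p, h1, h2, h3⟩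
    rw [ZFSet.pair_inj, cd_inj (x := p.2.2)] at h3
    rw [← cd_inj.1 h2, h1, h3.2]
  · intro e
    exact ⟨_, cd_mem _, _, cd_mem _, _, cd_mem (f x.1).1, _, pair_mem (cd_mem _) (cd_mem _),
      ⟨rfl, rfl⟩, rfl, (x.1, f x.1), rfl, rfl, by rw [e]⟩

@[fun_prop] theorem prodMk {f : α → β} {g : α → γ} (hf : MF M f) (hg : MF M g) :
    MF M fun x => (f x, g x) := by
  obtain ⟨a, ha, h⟩ := hf
  obtain ⟨b, hb, h'⟩ := hg
  refine Df.intro (.ex (.ex (.ex (.ex (.and (.pr 4 3 0) (.and (.pr 0 2 1)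
    (.and (.ap 5 3 2) (.ap 6 3 1)))))))) [a, b] (by simp [ha, hb]) fun x => ?_
  simp only [F0.S, List.getD_cons_zero, List.getD_cons_succ, h, h', cd_prod, ZFSet.pair_inj, cd_inj]
  constructor
  · rintro ⟨_, -, _, -, _, -, _, -, ⟨rfl, rfl⟩, h0, ⟨p, h1, h2, h3⟩, q, h4, h5, h6⟩
    rw [← h3, ← h6, ZFSet.pair_inj, cd_inj, cd_inj] at h0
    rw [← cd_inj.1 h2, h1, cd_inj.1 h2, ← cd_inj.1 h5, h4, ← h0.1, ← h0.2]
  · intro e
    exact ⟨_, cd_mem _, _, cd_mem (f x.1), _, cd_mem (g x.1), _, pair_mem (cd_mem _) (cd_mem _),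
      ⟨rfl, rfl⟩, by rw [← e], ⟨(x.1, f x.1), rfl, rfl, rfl⟩, (x.1, g x.1), rfl, rfl, rfl⟩

@[fun_prop] theorem comp {f : β → γ} {g : α → β} (hf : MF M f) (hg : MF M g) :
    MF M fun x => f (g x) := by
  have h1 := Df.comp hg (f := fun p : (α × γ) × β => (p.1.1, p.2)) (prodMk id'.fst.fst id'.snd)
  have h2 := Df.comp hf (f := fun p : (α × γ) × β => (p.2, p.1.2)) (prodMk id'.snd id'.fst.snd)
  have h3 := Df.ex (R := fun (p : α × γ) y => g p.1 = y ∧ f y = p.2) (h1.and h2)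
  simpa [MF] using h3

theorem df {P : α → Prop} (h : MF M P) : Df M P := by
  simpa using Df.comp h (f := fun x : α => (x, True)) (prodMk id' (const _))

theorem of_df {P : α → Prop} (h : Df M P) : MF M P := by
  have h1 : Df M fun p : α × Prop => P p.1 := h.comp id'.fst
  have h2 : Df M fun p : α × Prop => p.2 := by
    simpa using Df.comp (id' (α := Prop)) (f := fun p : α × Prop => (p.2, True))
      (prodMk id'.snd (const _))
  have h3 := (h1.and h2.not).not.and (h1.not.and h2).not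
  have e : (fun p : α × Prop => P p.1 = p.2) = fun p => ¬ (P p.1 ∧ ¬ p.2) ∧ ¬ (¬ P p.1 ∧ p.2) := by
    ext p; rw [eq_iff_iff]; tauto
  rw [MF, e]; exact h3

theorem congr {f g : α → β} (h : MF M f) (e : ∀ x, g x = f x) : MF M g := by
  rwa [show g = f from funext e]

theorem of_iff {p q : α → Prop} (h : MF M p) (e : ∀ x, q x ↔ p x) : MF M q :=
  h.congr fun x => propext (e x)

variable {p q : α → Prop}

@[fun_prop] theorem and (hp : MF M p) (hq : MF M q) : MF M fun x => p x ∧ q x :=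
  of_df (hp.df.and hq.df)

@[fun_prop] theorem not (hp : MF M p) : MF M fun x => ¬ p x := of_df hp.df.not

@[fun_prop] theorem imp (hp : MF M p) (hq : MF M q) : MF M fun x => p x → q x :=
  (hp.and hq.not).not.of_iff fun _ => by tauto

@[fun_prop] theorem or (hp : MF M p) (hq : MF M q) : MF M fun x => p x ∨ q x :=
  (hp.not.imp hq).of_iff fun _ => by tauto

@[fun_prop] theorem iff (hp : MF M p) (hq : MF M q) : MF M fun x => p x ↔ q x :=
  ((hp.imp hq).and (hq.imp hp)).of_iff fun _ => by tauto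

@[fun_prop] theorem ex {R : α → β → Prop} (h : MF M fun x : α × β => R x.1 x.2) :
    MF M fun x => ∃ y, R x y := of_df h.df.ex

@[fun_prop] theorem all {R : α → β → Prop} (h : MF M fun x : α × β => R x.1 x.2) :
    MF M fun x => ∀ y, R x y :=
  (ex (R := fun x y => ¬ R x y) h.not).not.of_iff fun _ => by simp

@[fun_prop] theorem eq {f g : α → β} (hf : MF M f) (hg : MF M g) : MF M fun x => f x = g x :=
  of_df (Df.comp (id' (α := β)) (prodMk hf hg))

@[fun_prop] theorem ne {f g : α → β} (hf : MF M f) (hg : MF M g) : MF M fun x => f x ≠ g x :=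
  (eq hf hg).not

theorem graph {f : α → β} (h : MF M fun x : α × β => f x.1 = x.2) : MF M f := h.df

/-- A function determined by a relation in `M`. -/
theorem of_rel {f : α → β} (R : α → β → Prop) (h : MF M fun x : α × β => R x.1 x.2)
    (e : ∀ x y, f x = y ↔ R x y) : MF M f := graph (h.of_iff fun _ => e _ _)

theorem of_inj {f : β → γ} {g : α → β} (hi : Injective f) (hf : MF M f)
    (h : MF M fun x => f (g x)) : MF M g :=
  of_rel (fun x y => f (g x) = f y) (eq (h.comp id'.fst) (hf.comp id'.snd)) fun _ _ => hi.eq_iff.symm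

@[fun_prop] theorem ite [∀ x, Decidable (p x)] {f g : α → β} (hp : MF M p) (hf : MF M f)
    (hg : MF M g) : MF M fun x => if p x then f x else g x :=
  of_rel (fun x y => (p x ∧ f x = y) ∨ (¬ p x ∧ g x = y)) (by fun_prop) fun x y => by
    by_cases h : p x <;> simp [h]

end MF

/-- Coding through an injection with range in `M`. -/
@[reducible] def Cd.ofInj {δ : Type w} (f : δ → α) (hi : Injective f)
    (h : MF M fun y => ∃ x, f x = y) : Cd M δ where
  c x := cd M (f x)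
  inj _ _ e := hi (cd_inj.1 e)
  ex := by
    obtain ⟨a, ha, h⟩ := h.df
    exact ⟨a, ha, fun z => (h z).trans (by simp)⟩

/-- Subsets of `α` lying in `M`. -/
@[ext] structure PM (M : ZFSet.{0}) [Mdl M] (α : Type u) [Cd M α] : Type u where
  set : Set α
  df : MF M fun x => x ∈ set

instance : Membership α (PM M α) := ⟨fun s x => x ∈ s.set⟩

theorem PM.mem_set {s : PM M α} {x : α} : x ∈ s.set ↔ x ∈ s := Iff.rfl

theorem PM.ext' {s t : PM M α} (h : ∀ x, x ∈ s ↔ x ∈ t) : s = t := PM.ext (Set.ext h)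

/-- The set of codes. -/
noncomputable def PM.z (s : PM M α) : ZFSet.{0} := s.df.df.choose

theorem PM.spec (s : PM M α) : s.z ∈ M ∧ ∀ z, z ∈ s.z ↔ ∃ x, x ∈ s ∧ cd M x = z :=
  s.df.df.choose_spec

noncomputable instance : Cd M (PM M α) where
  c := PM.z
  inj s t h := PM.ext' fun x => by
    have h1 := s.spec.2 (cd M x)
    have h2 := t.spec.2 (cd M x)
    simp only [cd_inj, exists_eq_right] at h1 h2
    rw [← h1, ← h2, h]
  ex := by
    obtain ⟨a, ha, h⟩ := Cd.ex (M := M) (α := α)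
    obtain ⟨p, hp, h1⟩ := Mdl.zf.power _ ha
    refine ⟨p, hp, fun z => ⟨fun hz => ?_, ?_⟩⟩
    · have h2 := (h1 z (tr hp hz)).1 hz
      refine ⟨⟨{x | cd M x ∈ z}, MF.of_df (Df.intro (.mem 0 1) [z] (by simp [tr hp hz])
        fun x => Iff.rfl)⟩, ZFSet.ext fun y => (PM.spec _).2 y |>.trans ⟨?_, fun hy => ?_⟩⟩
      · rintro ⟨x, hx, rfl⟩; exact hx
      · obtain ⟨x, rfl⟩ := (h y).1 (h2 hy)
        exact ⟨x, hy, rfl⟩
    · rintro ⟨s, rfl⟩
      refine (h1 _ s.spec.1).2 fun y hy => ?_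
      obtain ⟨x, -, rfl⟩ := (s.spec.2 y).1 hy
      exact (h _).2 ⟨x, rfl⟩

theorem mem_cd_PM {s : PM M α} {z : ZFSet} : z ∈ cd M s ↔ ∃ x, x ∈ s ∧ cd M x = z := s.spec.2 z

@[fun_prop] theorem MF.mem {f : α → β} {g : α → PM M β} (hf : MF M f) (hg : MF M g) :
    MF M fun x => f x ∈ g x := by
  have : Df M fun p : β × PM M β => p.1 ∈ p.2 := by
    refine Df.intro (.ex (.ex (.and (.pr 2 1 0) (.mem 1 0)))) [] (by simp) fun x => ?_
    simp only [F0.S, List.getD_cons_zero, List.getD_cons_succ, cd_prod, ZFSet.pair_inj]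
    constructor
    · rintro ⟨_, -, _, -, ⟨rfl, rfl⟩, h⟩
      simpa [mem_cd_PM, cd_inj] using h
    · exact fun h => ⟨_, cd_mem _, _, cd_mem _, ⟨rfl, rfl⟩, mem_cd_PM.2 ⟨_, h, rfl⟩⟩
  exact (MF.of_df this).comp (hf.prodMk hg)

/-- The subset defined by a predicate in `M`. -/
def PM.of (P : α → Prop) (h : MF M P) : PM M α := ⟨{x | P x}, h⟩

@[simp] theorem PM.mem_of {P : α → Prop} {h : MF M P} {x : α} : x ∈ PM.of P h ↔ P x := Iff.rfl

theorem MF.toPM {f : α → PM M β} (h : MF M fun p : α × β => p.2 ∈ f p.1) : MF M f :=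
  MF.of_rel (fun x s => ∀ y, y ∈ f x ↔ y ∈ s)
    (MF.all (MF.iff (h.comp (g := fun p : (α × PM M β) × β => (p.1.1, p.2)) (by fun_prop))
      (by fun_prop))) fun _ _ => ⟨fun e => e ▸ fun _ => Iff.rfl, PM.ext'⟩

/-- A family of subsets. -/
def PM.lam (R : α → β → Prop) (h : MF M fun p : α × β => R p.1 p.2) (x : α) : PM M β :=
  PM.of (R x) (h.comp (g := fun y => (x, y)) (by fun_prop))

@[simp] theorem PM.mem_lam {R : α → β → Prop} {h : MF M fun p : α × β => R p.1 p.2} {x : α}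
    {y : β} : y ∈ PM.lam R h x ↔ R x y := Iff.rfl

@[fun_prop] theorem MF.pmlam {R : α → β → Prop} {h : MF M fun p : α × β => R p.1 p.2}
    {f : γ → α} (hf : MF M f) : MF M fun x => PM.lam R h (f x) :=
  (MF.toPM (f := PM.lam R h) h).comp hf

/-- The elements of a subset as a coded type. -/
def PM.El (s : PM M α) : Type u := {x // x ∈ s}

instance (s : PM M α) : Cd M s.El :=
  Cd.ofInj (fun x : s.El => x.1) Subtype.val_injective (s.df.of_iff fun _ => by simp [PM.El, PM.mem_set])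

/-- The underlying element. -/
def PM.El.v {s : PM M α} (x : s.El) : α := x.1

theorem PM.El.mem {s : PM M α} (x : s.El) : x.v ∈ s := x.2

theorem PM.El.inj {s : PM M α} : Injective (PM.El.v (s := s)) := Subtype.val_injective

/-- An element of a subset. -/
def PM.mk' (s : PM M α) (x : α) (h : x ∈ s) : s.El := ⟨x, h⟩

@[simp] theorem PM.v_mk' (s : PM M α) (x : α) (h : x ∈ s) : (s.mk' x h).v = x := rfl

@[fun_prop] theorem MF.v {s : PM M β} {f : α → s.El} (hf : MF M f) : MF M fun x => (f x).v :=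
  (MF.of_code (f := PM.El.v (s := s)) fun _ => rfl).comp hf

theorem MF.toEl {s : PM M β} {f : α → s.El} (hf : MF M fun x => (f x).v) : MF M f :=
  MF.of_inj PM.El.inj (MF.v MF.id') hf

@[fun_prop] theorem MF.mk' {s : PM M β} {f : α → β} {h : ∀ x, f x ∈ s} (hf : MF M f) :
    MF M fun x => s.mk' (f x) (h x) := MF.toEl hf

/-- Functions lying in `M`. -/
@[ext] structure FM (M : ZFSet.{0}) [Mdl M] (α : Type u) (β : Type v) [Cd M α] [Cd M β] :
    Type (max u v) where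
  fn : α → β
  mf : MF M fn

/-- The graph of a function. -/
def FM.gr (f : FM M α β) : PM M (α × β) :=
  PM.of (fun p => f.fn p.1 = p.2) (MF.of_df f.mf)

theorem FM.gr_inj : Injective (FM.gr (M := M) (α := α) (β := β)) := fun f g h =>
  FM.ext (funext fun x => by
    have : (x, g.fn x) ∈ f.gr := h ▸ (rfl : g.fn x = g.fn x)
    exact this)

noncomputable instance : Cd M (FM M α β) :=
  Cd.ofInj FM.gr FM.gr_inj (MF.of_iff (p := fun s : PM M (α × β) =>
      ∀ x, ∃ y, ∀ z, (x, z) ∈ s ↔ y = z) (by fun_prop) fun s => by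
    constructor
    · rintro ⟨f, rfl⟩ x
      exact ⟨f.fn x, fun _ => Iff.rfl⟩
    · intro h
      choose f hf using h
      exact ⟨⟨f, MF.graph (s.df.of_iff fun p => (hf p.1 p.2).symm)⟩,
        PM.ext' fun p => (hf p.1 p.2).symm⟩)

@[fun_prop] theorem MF.ap {f : α → FM M β γ} {g : α → β} (hf : MF M f) (hg : MF M g) :
    MF M fun x => (f x).fn (g x) := by
  have h : MF M (FM.gr (M := M) (α := β) (β := γ)) := MF.of_code fun _ => rfl
  exact MF.of_rel (fun x y => (g x, y) ∈ (f x).gr) (by fun_prop) fun _ _ => Iff.rfl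

theorem MF.toFM {f : α → FM M β γ} (h : MF M fun p : α × β => (f p.1).fn p.2) : MF M f :=
  MF.of_rel (fun x s => ∀ y, (f x).fn y = s.fn y)
    (MF.all (MF.eq (h.comp (g := fun p : (α × FM M β γ) × β => (p.1.1, p.2)) (by fun_prop))
      (by fun_prop))) fun _ _ => ⟨fun e => e ▸ fun _ => rfl, fun e => FM.ext (funext e)⟩

/-- A family of functions. -/
def FM.lam (F : α → β → γ) (h : MF M fun p : α × β => F p.1 p.2) (x : α) : FM M β γ :=
  ⟨F x, h.comp (g := fun y => (x, y)) (by fun_prop)⟩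

@[simp] theorem FM.lam_fn {F : α → β → γ} {h : MF M fun p : α × β => F p.1 p.2} {x : α} :
    (FM.lam F h x).fn = F x := rfl

@[fun_prop] theorem MF.fmlam {F : α → β → γ} {h : MF M fun p : α × β => F p.1 p.2}
    {δ : Type*} [Cd M δ] {f : δ → α} (hf : MF M f) : MF M fun x => FM.lam F h (f x) :=
  (MF.toFM (f := FM.lam F h) h).comp hf

end Pool.Agent.Shared.InModel
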