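import Pool.Agent.Shared.InModel.Rec

/-!
Cardinal arithmetic inside `M`.
-/

namespace Pool.Agent.Shared.InModel

open Function

universe u v w

/-- There is an injection in `M`. -/
def Le (M : ZFSet.{0}) [Mdl M] (α : Type u) (β : Type v) [Cd M α] [Cd M β] : Prop :=
  ∃ f : α → β, MF M f ∧ Injective f

variable {M : ZFSet.{0}} [Mdl M]
variable {α : Type u} {β : Type v} {γ : Type w} [Cd M α] [Cd M β] [Cd M γ]

namespace Le

theorem refl : Le M α α := ⟨fun x => x, MF.id', injective_id⟩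

theorem trans (h : Le M α β) (h' : Le M β γ) : Le M α γ :=
  let ⟨_, a, b⟩ := h; let ⟨_, c, d⟩ := h'; ⟨_, c.comp a, d.comp b⟩

theorem finite (h : Le M α β) [Finite β] : Finite α := let ⟨f, _, b⟩ := h; Finite.of_injective f b

theorem infinite (h : Le M α β) [Infinite α] : Infinite β :=
  let ⟨f, _, b⟩ := h; Infinite.of_injective f b

theorem prod {δ : Type*} [Cd M δ] (h : Le M α β) (h' : Le M γ δ) : Le M (α × γ) (β × δ) :=
  let ⟨f, a, b⟩ := h; let ⟨g, c, d⟩ := h'
  ⟨fun p => (f p.1, g p.2), by fun_prop, b.prodMap d⟩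

theorem pm (h : Le M α β) : Le M (PM M α) (PM M β) := by
  obtain ⟨f, a, b⟩ := h
  refine ⟨PM.lam (fun s y => ∃ x, x ∈ s ∧ f x = y) (by fun_prop), MF.pmlam MF.id',
    fun s t e => PM.ext' fun x => ?_⟩
  simpa [b.eq_iff] using congrArg (fun s => f x ∈ s) e

theorem fm (h : Le M α β) : Le M (FM M γ α) (FM M γ β) := by
  obtain ⟨f, a, b⟩ := h
  exact ⟨FM.lam (fun s y => f (s.fn y)) (by fun_prop), MF.fmlam MF.id',
    fun s t e => FM.ext (funext fun x => b (congrArg (fun s => s.fn x) e))⟩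

theorem list (h : Le M α β) : Le M (List α) (List β) :=
  let ⟨f, a, b⟩ := h; ⟨fun l => l.map f, by fun_prop, List.map_injective_iff.2 b⟩

theorem el (s : PM M α) : Le M s.El α := ⟨_, MF.v MF.id', PM.El.inj⟩

theorem toEl {s : PM M β} (f : α → β) (hf : MF M f) (hi : Injective f) (h : ∀ x, f x ∈ s) :
    Le M α s.El :=
  ⟨fun x => s.mk' (f x) (h x), by fun_prop, fun _ _ e => hi (congrArg PM.El.v e :)⟩

theorem sub {s t : PM M α} (h : ∀ x ∈ s, x ∈ t) : Le M s.El t.El :=
  toEl _ (MF.v MF.id') PM.El.inj fun x => h _ x.mem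

theorem sing : Le M α (PM M α) :=
  ⟨PM.lam (fun x y => x = y) (by fun_prop), MF.pmlam MF.id', fun x y e => by
    simpa using congrArg (fun s => y ∈ s) e⟩

theorem gr : Le M (FM M α β) (PM M (α × β)) := ⟨FM.gr, MF.of_code fun _ => rfl, FM.gr_inj⟩

theorem right [Nonempty α] : Le M β (α × β) :=
  ⟨fun y => (Classical.arbitrary α, y), by fun_prop, fun _ _ e => (Prod.mk.inj e).2⟩

theorem left [Nonempty β] : Le M α (α × β) :=
  ⟨fun y => (y, Classical.arbitrary β), by fun_prop, fun _ _ e => (Prod.mk.inj e).1⟩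

theorem fm_pm : Le M (FM M γ (PM M α)) (PM M (γ × α)) :=
  ⟨PM.lam (fun f p => p.2 ∈ f.fn p.1) (by fun_prop), MF.pmlam MF.id', fun f g e =>
    FM.ext (funext fun x => PM.ext' fun y => by simpa using congrArg (fun s => (x, y) ∈ s) e)⟩

theorem bool : Le M Bool ℕ :=
  ⟨fun b => if b = true then 1 else 0, by fun_prop, by rintro (_ | _) (_ | _) <;> simp⟩

end Le

theorem cantor : ¬ Le M (PM M α) α := by
  rintro ⟨f, a, b⟩
  let D : PM M α := PM.of (fun x => ∃ s, f s = x ∧ x ∉ s) (by fun_prop)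
  have : f D ∈ D ↔ f D ∉ D := ⟨fun ⟨s, e, h⟩ => b e ▸ h, fun h => ⟨D, rfl, h⟩⟩
  exact iff_not_self this

theorem MF.initialSeg {r : α → α → Prop} {s : β → β → Prop} [IsWellOrder α r] [IsWellOrder β s]
    (hr : MF M fun p : α × α => r p.1 p.2) (hs : MF M fun p : β × β => s p.1 p.2) (f : InitialSeg r s) :
    MF M (f : α → β) := by
  refine (MF.wfrec (M := M) r IsWellFounded.wf (fun _ _ _ => _root_.trans) hr (fun _ : ℕ => f)
    (fun _ a g y => ∀ z, s z y ↔ ∃ b, r b a ∧ g.fn b = z) (by fun_prop) fun _ a g hg y => ?_).comp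
    (g := fun a => (0, a)) (by fun_prop)
  have key : ∀ z, s z (f a) ↔ ∃ b, r b a ∧ g.fn b = z := fun z => by
    rw [f.exists_eq_iff_rel]
    exact exists_congr fun b => by rw [and_comm]; exact and_congr_right fun h => by rw [hg b h]
  refine ⟨fun h => ?_, fun e => e ▸ key⟩
  rcases trichotomous_of s (f a) y with e | e | e
  · exact (irrefl _ ((key _).2 ((h _).1 e))).elim
  · exact e
  · exact (irrefl _ ((h _).2 ((key _).1 e))).elim

/-- Initial segments. -/
def seg (r : α → α → Prop) (hr : MF M fun p : α × α => r p.1 p.2) (a : α) : PM M α :=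
  PM.lam (fun a b => r b a) (by fun_prop) a

@[simp] theorem mem_seg {r : α → α → Prop} {hr : MF M fun p : α × α => r p.1 p.2} {a b : α} :
    b ∈ seg r hr a ↔ r b a := Iff.rfl

variable [Chc M]

namespace Le

theorem of_rel (R : α → β → Prop) (hR : MF M fun p : α × β => R p.1 p.2) (h : ∀ a, ∃ b, R a b)
    (h' : ∀ a a' b, R a b → R a' b → a = a') : Le M α β :=
  let ⟨f, h1, h2⟩ := choice hR h; ⟨f, h1, fun a a' e => h' a a' _ (h2 a) (e ▸ h2 a')⟩

theorem of_surj {g : β → α} (hg : MF M g) (h : Surjective g) : Le M α β :=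
  of_rel (fun a b => g b = a) (by fun_prop) h fun _ _ _ a b => a.symm.trans b

theorem surj [Nonempty α] (h : Le M α β) : ∃ g : β → α, MF M g ∧ Surjective g := by
  obtain ⟨f, a, b⟩ := h
  obtain ⟨g, c, d⟩ := choice' (M := M) (R := fun y x => f x = y) (by fun_prop)
  exact ⟨g, c, fun x => ⟨f x, b (d _ ⟨x, rfl⟩)⟩⟩

theorem total : Le M α β ∨ Le M β α := by
  obtain ⟨r, _, hr⟩ := exists_wo M α
  obtain ⟨s, _, hs⟩ := exists_wo M β
  rcases InitialSeg.total r s with f | f
  · exact Or.inl ⟨f, MF.initialSeg hr hs f, f.injective⟩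
  · exact Or.inr ⟨f, MF.initialSeg hs hr f, f.injective⟩

theorem nat [Infinite α] : Le M ℕ α := by
  obtain ⟨x, h1, h2⟩ := exists_seq (M := M) (R := fun x y : α => x ≠ y) (by fun_prop) fun l => by
    obtain ⟨y, hy⟩ := l.finite_toSet.exists_notMem
    exact ⟨y, fun x hx e => hy (e ▸ hx)⟩
  exact ⟨x, h1, Function.Injective.of_lt_imp_ne h2⟩

theorem of_finite [Finite α] [Infinite β] : Le M α β :=
  total.resolve_right fun h => have := h.infinite; not_finite α

theorem el_iff [Nonempty β] {s : PM M α} :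
    Le M s.El β ↔ ∃ f : FM M α β, ∀ x y, x ∈ s → y ∈ s → f.fn x = f.fn y → x = y := by
  constructor
  · rintro ⟨f, a, b⟩
    obtain ⟨g, c, d⟩ := choice' (M := M) (R := fun (x : α) y => ∃ z : s.El, z.v = x ∧ f z = y)
      (by fun_prop)
    refine ⟨⟨g, c⟩, fun x y hx hy e => ?_⟩
    obtain ⟨z, rfl, h1⟩ := d x ⟨_, s.mk' x hx, rfl, rfl⟩
    obtain ⟨z', rfl, h2⟩ := d y ⟨_, s.mk' y hy, rfl, rfl⟩
    rw [b (h1.trans (e.trans h2.symm))]
  · rintro ⟨f, h⟩
    exact ⟨fun x => f.fn x.v, by fun_prop, fun x y e => PM.El.inj (h _ _ x.mem y.mem e)⟩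

theorem union [Nonempty β] {s : γ → PM M α} (hs : MF M s) (h : ∀ x, ∃ i, x ∈ s i)
    (h' : ∀ i, Le M (s i).El β) : Le M α (γ × β) := by
  obtain ⟨f, a, b⟩ := choice (M := M) (R := fun i (f : FM M α β) =>
    ∀ x y, x ∈ s i → y ∈ s i → f.fn x = f.fn y → x = y) (by fun_prop) fun i => el_iff.1 (h' i)
  exact of_rel (fun x p => x ∈ s p.1 ∧ (f p.1).fn x = p.2) (by fun_prop)
    (fun x => let ⟨i, hi⟩ := h x; ⟨(i, (f i).fn x), hi, rfl⟩)
    fun x y p h1 h2 => b _ _ _ h1.1 h2.1 (h1.2.trans h2.2.symm)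

theorem of_cover {s : PM M α} (x : β → α) (hx : MF M x) (h : ∀ a ∈ s, ∃ b, x b = a) :
    Le M s.El β :=
  of_rel (fun a b => x b = a.v) (by fun_prop) (fun a => h _ a.mem)
    fun _ _ _ a b => PM.El.inj (a.symm.trans b)

theorem cover [Nonempty α] {s : PM M α} (h : Le M s.El β) :
    ∃ x : β → α, MF M x ∧ ∀ a ∈ s, ∃ b, x b = a := by
  obtain ⟨f, a, b⟩ := h
  obtain ⟨g, c, d⟩ := choice' (M := M) (R := fun y (x : α) => ∃ z : s.El, z.v = x ∧ f z = y)
    (by fun_prop)
  refine ⟨g, c, fun x hx => ⟨f (s.mk' x hx), ?_⟩⟩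
  obtain ⟨z, h1, h2⟩ := d _ ⟨_, s.mk' x hx, rfl, rfl⟩
  rw [← h1, b h2]; rfl

theorem opt [Infinite α] : Le M (Option α) (α × α) := by
  obtain ⟨a, b, h⟩ := exists_pair_ne α
  exact of_rel (fun o p => (o = none ∧ p = (a, a)) ∨ (o = some p.1 ∧ p.2 = b)) (by fun_prop)
    (by rintro (_ | x); exacts [⟨_, Or.inl ⟨rfl, rfl⟩⟩, ⟨(x, b), Or.inr ⟨rfl, rfl⟩⟩])
    (by rintro _ _ p (⟨rfl, rfl⟩ | ⟨rfl, h1⟩) (⟨rfl, h2⟩ | ⟨rfl, h2⟩) <;> simp_all)

end Le

@[fun_prop] theorem MF.le [Nonempty β] {s : γ → PM M α} (hs : MF M s) :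
    MF M fun x => Le M (s x).El β :=
  MF.of_iff (by fun_prop) fun _ => Le.el_iff

theorem le_opt_seg {r : α → α → Prop} [IsWellOrder α r] (hr : MF M fun p : α × α => r p.1 p.2)
    (m : α) {s : PM M α} (h : ∀ x ∈ s, ¬ r m x) : Le M s.El (Option (seg r hr m).El) := by
  refine Le.of_rel (fun x o => (x.v = m ∧ o = none) ∨ ∃ y, o = some y ∧ y.v = x.v) (by fun_prop)
    (fun x => ?_) ?_
  · rcases trichotomous_of r x.v m with e | e | e
    · exact ⟨_, Or.inr ⟨PM.mk' _ _ e, rfl, rfl⟩⟩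
    · exact ⟨_, Or.inl ⟨e, rfl⟩⟩
    · exact (h _ x.mem e).elim
  · rintro x x' o (⟨a, rfl⟩ | ⟨y, rfl, a⟩) (⟨b, c⟩ | ⟨y', c, b⟩)
    · exact PM.El.inj (a.trans b.symm)
    · cases c
    · cases c
    · cases c; exact PM.El.inj (a.symm.trans b)

theorem hess_aux (o : Ordinal.{u}) : ∀ (α : Type u) [Cd M α] [Infinite α] (r : α → α → Prop)
    [IsWellOrder α r] (hr : MF M fun p : α × α => r p.1 p.2), Ordinal.type r = o →
      Le M (α × α) α := by
  classical
  induction o using WellFoundedLT.induction with | _ o ih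
  intro α _ _ r _ hr ho
  have ih' : ∀ a, Infinite (seg r hr a).El → Le M ((seg r hr a).El × (seg r hr a).El)
      (seg r hr a).El := fun a _ => by
    have : IsWellOrder (seg r hr a).El fun x y => r x.v y.v :=
      (RelEmbedding.preimage ⟨PM.El.v, PM.El.inj⟩ r).isWellOrder
    exact ih _ (ho ▸ Ordinal.typein_lt_type r a) _ (fun x y => r x.v y.v) (by fun_prop) rfl
  by_cases h : ∃ a, Le M α (seg r hr a).El
  · obtain ⟨a, h⟩ := h
    exact (h.prod h).trans ((ih' a h.infinite).trans (Le.el _))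
  let mx : α × α → α := fun p => if r p.1 p.2 then p.2 else p.1
  have hm : MF M mx := by simp only [mx]; fun_prop
  let s : α × α → α × α → Prop := fun p q => Prod.Lex r (Prod.Lex r r) (mx p, p) (mx q, q)
  have : IsWellOrder _ s := (RelEmbedding.preimage ⟨fun p => (mx p, p),
    fun _ _ e => (Prod.mk.inj e).2⟩ (Prod.Lex r (Prod.Lex r r))).isWellOrder
  have hs : MF M fun p : (α × α) × α × α => s p.1 p.2 := by
    simp only [s, Prod.lex_def]; fun_prop
  rcases InitialSeg.total s r with f | f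
  · exact ⟨f, MF.initialSeg hs hr f, f.injective⟩
  have hf := MF.initialSeg hr hs f
  by_cases su : Surjective f
  · exact Le.of_surj hf su
  obtain ⟨q, hq⟩ := not_forall.1 su
  have h1 : ∀ a, ¬ r (mx q) (mx (f a)) := fun a e =>
    hq (f.mem_range_of_rel (a := a) (Prod.Lex.left _ _ e))
  have h2 : ∀ (p : α × α) m, ¬ r m (mx p) → ¬ r m p.1 ∧ ¬ r m p.2 := fun p m e => by
    by_cases c : r p.1 p.2
    · simp only [mx, if_pos c] at e
      exact ⟨fun d => e (_root_.trans d c), e⟩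
    · simp only [mx, if_neg c] at e
      refine ⟨e, fun d => ?_⟩
      rcases trichotomous_of r p.2 p.1 with x | x | x
      exacts [e (_root_.trans d x), e (x ▸ d), c x]
  let T : PM M α := PM.of (fun x => ¬ r (mx q) x) (by fun_prop)
  have h3 : Le M α (T.El × T.El) :=
    ⟨fun a => (T.mk' _ (h2 _ _ (h1 a)).1, T.mk' _ (h2 _ _ (h1 a)).2),
      (MF.toEl hf.fst).prodMk (MF.toEl hf.snd), fun a b e => f.injective
        (Prod.ext (congrArg (·.1.v) e) (congrArg (·.2.v) e))⟩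
  have h4 := le_opt_seg hr (mx q) (s := T) fun _ => id
  rcases finite_or_infinite (seg r hr (mx q)).El with c | c
  · have := (h3.trans (h4.prod h4)).finite
    exact (not_finite α).elim
  · have h5 := h4.trans (Le.opt.trans (ih' _ c))
    exact (h ⟨_, h3.trans ((h5.prod h5).trans (ih' _ c))⟩).elim

namespace Le

theorem sq [Infinite α] : Le M (α × α) α := by
  obtain ⟨r, _, hr⟩ := exists_wo M α
  exact hess_aux _ α r hr rfl

theorem pr [Infinite γ] (h : Le M α γ) (h' : Le M β γ) : Le M (α × β) γ := (h.prod h').trans sq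

theorem op [Infinite γ] (h : Le M α γ) : Le M (Option α) γ := by
  rcases finite_or_infinite α with c | c
  · exact of_finite
  · exact opt.trans (h.pr h)

theorem li [Infinite γ] (h : Le M α γ) : Le M (List α) γ := by
  obtain ⟨j, h1, h2⟩ := sq (M := M) (α := γ)
  let c : List γ → γ := fun l => l.foldr (fun a y => j (a, y)) (Classical.arbitrary γ)
  have hc : MF M c := (MF.of_listRec (fun _ : ℕ => c) (fun _ a _ y => j (a, y)) (by fun_prop)
    (by fun_prop) fun _ _ _ => rfl).comp (g := fun l => (0, l)) (by fun_prop)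
  refine h.list.trans (trans ⟨fun l => (l.length, c l), by fun_prop, fun l l' e => ?_⟩ (nat.pr refl))
  induction l generalizing l' with
  | nil => exact (List.length_eq_zero_iff.1 (Prod.mk.inj e).1.symm).symm
  | cons a l ih =>
    rcases l' with _ | ⟨b, l'⟩
    · cases (Prod.mk.inj e).1
    · have e1 := Prod.mk.inj (h2 (Prod.mk.inj e).2)
      rw [e1.1, ih l' (Prod.ext (Nat.succ_inj.1 (Prod.mk.inj e).1) e1.2)]

end Le

theorem not_le_prod [Infinite γ] (h : ¬ Le M γ α) (h' : ¬ Le M γ β) : ¬ Le M γ (α × β) := by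
  intro e
  rcases finite_or_infinite α with c | c <;> rcases finite_or_infinite β with d | d
  · have := e.finite; exact not_finite γ
  · exact h' (e.trans (Le.of_finite.pr Le.refl))
  · exact h (e.trans (Le.refl.pr Le.of_finite))
  · rcases Le.total (M := M) (α := α) (β := β) with x | x
    · exact h' (e.trans (x.pr Le.refl))
    · exact h (e.trans (Le.refl.pr x))

theorem not_le_opt [Infinite γ] (h : ¬ Le M γ α) : ¬ Le M γ (Option α) := by
  intro e
  rcases finite_or_infinite α with c | c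
  · have := e.finite; exact not_finite γ
  · exact h (e.trans Le.refl.op)

theorem not_le_list (h0 : ¬ Le M γ ℕ) (h : ¬ Le M γ α) : ¬ Le M γ (List α) := by
  intro e
  rcases finite_or_infinite α with c | c
  · exact h0 (e.trans Le.of_finite.li)
  · exact h (e.trans Le.refl.li)

theorem infinite_of_not_le [Infinite β] (h : ¬ Le M α β) : Infinite α :=
  not_finite_iff_infinite.1 fun _ => h Le.of_finite

theorem exists_init (M : ZFSet.{0}) [Mdl M] [Chc M] (α : Type u) [Cd M α] :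
    ∃ (r : α → α → Prop) (_ : IsWellOrder α r) (hr : MF M fun p : α × α => r p.1 p.2),
      ∀ a, ¬ Le M α (seg r hr a).El := by
  obtain ⟨r, wo, hr⟩ := exists_wo M α
  by_cases h : ∃ a, Le M α (seg r hr a).El
  swap
  · exact ⟨r, wo, hr, not_exists.1 h⟩
  have wf : WellFounded r := IsWellFounded.wf
  obtain ⟨a, ⟨f, h1, h2⟩, h3⟩ := wf.has_min _ h
  refine ⟨fun x y => r (f x).v (f y).v,
    (RelEmbedding.preimage ⟨fun x => (f x).v, PM.El.inj.comp h2⟩ r).isWellOrder, by fun_prop,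
    fun x e => h3 (f x).v (e.trans (Le.toEl (fun y => (f y.v).v) (by fun_prop)
      (fun y z e => PM.El.inj (h2 (PM.El.inj e))) fun y => y.mem)) (f x).mem⟩

/-- Closing off under countably many finitary operations. -/
theorem exists_closure [Infinite β] (op : ℕ → List α → α)
    (hop : MF M fun p : ℕ × List α => op p.1 p.2) (x : β → α) (hx : MF M x) :
    ∃ y : β → α, MF M y ∧ (∀ b, ∃ c, y c = x b) ∧
      ∀ i (l : List α), (∀ a ∈ l, ∃ c, y c = a) → ∃ c, y c = op i l := by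
  obtain ⟨σ, h1, h2⟩ := (Le.nat.pr (Le.refl (M := M) (α := β)).li).surj
  obtain ⟨τ, h3, h4⟩ := (Le.nat.pr (Le.refl (M := M) (α := β))).surj
  let st : FM M β α → FM M β α := FM.lam (fun (g : FM M β α) b => if (σ b).1 = 0 then
    ((σ b).2.map g.fn).getD 0 (x b) else op ((σ b).1 - 1) ((σ b).2.map g.fn)) (by fun_prop)
  have hst : MF M st := MF.fmlam MF.id'
  let ev : ℕ → FM M β α := fun n => Nat.rec ⟨x, hx⟩ (fun _ => st) n
  have hev : MF M ev := MF.seq ev (fun _ => st) (by fun_prop) fun _ => rfl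
  have mono : ∀ m n, m ≤ n → ∀ b, ∃ c, (ev n).fn c = (ev m).fn b := fun m n h b => by
    induction h with
    | refl => exact ⟨b, rfl⟩
    | step _ ih =>
      obtain ⟨c, e⟩ := ih
      obtain ⟨d, hd⟩ := h2 (0, [c])
      exact ⟨d, by simp [ev, st, hd, ← e]⟩
  have key : ∀ n b, ∃ c, (ev (τ c).1).fn (τ c).2 = (ev n).fn b := fun n b =>
    (h4 (n, b)).imp fun c e => by rw [e]
  refine ⟨fun c => (ev (τ c).1).fn (τ c).2, by fun_prop, key 0, fun i l hl => ?_⟩
  obtain ⟨n, l', e⟩ : ∃ n, ∃ l' : List β, l'.map (ev n).fn = l := by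
    induction l with
    | nil => exact ⟨0, [], rfl⟩
    | cons a l ih =>
      obtain ⟨n, l', rfl⟩ := ih fun a h => hl a (List.mem_cons_of_mem _ h)
      obtain ⟨c, rfl⟩ := hl a List.mem_cons_self
      obtain ⟨d, hd⟩ := mono _ _ (le_max_left (τ c).1 n) (τ c).2
      choose g hg using mono _ _ (le_max_right (τ c).1 n)
      exact ⟨max (τ c).1 n, d :: l'.map g, by simp [hd, hg]⟩
  obtain ⟨d, hd⟩ := h2 (i + 1, l')
  obtain ⟨c, hc⟩ := key (n + 1) d
  exact ⟨c, hc.trans (by simp [ev, st, hd, ← e])⟩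

/-- The generalised continuum hypothesis in `M`. -/
def GCH (M : ZFSet.{0}) [Mdl M] : Prop :=
  ∀ (α β : Type 1) [Cd M α] [Cd M β] [Infinite α], ¬ Le M β α → Le M (PM M α) β

/-- On every uncountable set there is a family of full size with countably many traces on every
countable set. -/
def KH (M : ZFSet.{0}) [Mdl M] : Prop :=
  ∀ (α : Type 1) [Cd M α], ¬ Le M α ℕ → ∃ tr : PM M α → PM M α, MF M tr ∧ Injective tr ∧
    ∀ A : FM M ℕ α, ∃ en : PM M α → ℕ, MF M en ∧
      ∀ X Y, en X = en Y → ∀ n, (A.fn n ∈ tr X ↔ A.fn n ∈ tr Y)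

theorem pick (gch : GCH M) (B : Type 1) [Cd M B] (h : ¬ Le M B ℕ) :
    Le M (FM M ℕ B) B ∨ ∃ R : ℕ → PM M B, MF M R ∧ (∀ b, ∃ n, ∀ m ≥ n, b ∈ R m) ∧
      (∀ n, ¬ Le M B (R n).El) ∧
      ∀ (α : Type 1) [Cd M α], ¬ Le M B α → ¬ Le M B (PM M α) := by
  classical
  have := infinite_of_not_le h
  obtain ⟨r, wo, hr, h1⟩ := exists_init M B
  by_cases c : ∀ x : FM M ℕ B, ∃ b, ∀ n, r (x.fn n) b
  · left
    refine (Le.union (s := PM.lam (fun b (x : FM M ℕ B) => ∀ n, r (x.fn n) b) (by fun_prop))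
      (MF.pmlam MF.id') c fun b => ?_).trans Le.sq
    have : Nonempty (Option (seg r hr b).El) := ⟨none⟩
    refine Le.trans ?_ (gch (ℕ × Option (seg r hr b).El) B (not_le_prod h (not_le_opt (h1 b))))
    refine ⟨fun x => PM.lam (fun (x : FM M ℕ B) (p : ℕ × Option (seg r hr b).El) =>
      ∃ y, p.2 = some y ∧ y.v = x.fn p.1) (by fun_prop) x.v, by fun_prop, fun x y e =>
        PM.El.inj (FM.ext (funext fun n => ?_))⟩
    have := congrArg (fun s => (n, some (PM.mk' (seg r hr b) _ (x.mem n))) ∈ s) e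
    simpa using this
  · right
    push Not at c
    obtain ⟨x, hx⟩ := c
    let R := PM.lam (M := M) (fun n b => ∃ k, k ≤ n ∧ ¬ r (x.fn k) b) (by fun_prop)
    have hR : MF M R := MF.pmlam MF.id'
    have h2 : ∀ b, ∃ n, ∀ m ≥ n, b ∈ R m := fun b => (hx b).imp fun n hn m hm => ⟨n, hm, hn⟩
    have h3 : ∀ n, ¬ Le M B (R n).El := fun n e => by
      let _ := linearOrderOfSTO r
      obtain ⟨k, -, hk⟩ := (Finset.range (n + 1)).exists_max_image x.fn (by simp)
      refine not_le_opt (h1 (x.fn k)) (e.trans (le_opt_seg hr _ ?_))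
      rintro b ⟨j, hj, h4⟩ h5
      exact h4 ((hk j (Finset.mem_range.2 (Nat.lt_succ_of_le hj))).trans_lt h5)
    refine ⟨R, hR, h2, h3, fun α _ h4 h5 => ?_⟩
    have h6 := not_le_prod h (not_le_opt h4)
    refine h6 ((Le.union hR (fun b => (h2 b).imp fun n hn => hn n le_rfl) fun n => ?_).trans
      (Le.nat.pr Le.refl))
    by_contra h7
    exact h3 n (h5.trans ((Le.pm (Le.trans ⟨some, by fun_prop, Option.some_injective _⟩
      Le.right)).trans (gch _ _ h7)))

end Pool.Agent.Shared.InModel
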