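import Pool.Agent.Shared.InModel.Basic

/-!
Recursion, natural numbers, options, lists, choice and maximal principles inside `M`.
-/

namespace Pool.Agent.Shared.InModel

open Function Pool.Agent.Lib.MP_053343_lc

universe u v w

variable {M : ZFSet.{0}} [Mdl M]
variable {α : Type u} {β : Type v} {γ : Type w} [Cd M α] [Cd M β] [Cd M γ]

theorem MF.wfrec (r : α → α → Prop) (wf : WellFounded r) (tr : ∀ a b c, r a b → r b c → r a c)
    (hr : MF M fun p : α × α => r p.1 p.2) (f : γ → α → β) (Φ : γ → α → FM M α β → β → Prop)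
    (hΦ : MF M fun p : γ × α × FM M α β × β => Φ p.1 p.2.1 p.2.2.1 p.2.2.2)
    (h : ∀ x a (g : FM M α β), (∀ b, r b a → g.fn b = f x b) → ∀ y, Φ x a g y ↔ f x a = y) :
    MF M fun p : γ × α => f p.1 p.2 := by
  classical
  let Gr : γ → α → β → Prop := fun x a y =>
    ∃ g : FM M α β, (∀ b, (r b a ∨ b = a) → Φ x b g (g.fn b)) ∧ g.fn a = y
  have hG : MF M fun p : γ × α × β => Gr p.1 p.2.1 p.2.2 := by
    simp only [Gr]; fun_prop
  have sound : ∀ x a y, Gr x a y → f x a = y := by
    rintro x a y ⟨g, h1, rfl⟩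
    have : ∀ b, (r b a ∨ b = a) → g.fn b = f x b := fun b => wf.induction (C := fun b =>
      (r b a ∨ b = a) → g.fn b = f x b) b fun b ih hb =>
        ((h x b g (fun c hc => ih c hc (Or.inl (hb.elim (tr _ _ _ hc) fun e => e ▸ hc))) _).1
          (h1 b hb)).symm
    exact (this a (Or.inr rfl)).symm
  have full : ∀ x a, Gr x a (f x a) := fun x a => wf.induction (C := fun a => Gr x a (f x a)) a
    fun a ih => by
      have hg : MF M fun b => if r b a then f x b else f x a :=
        MF.of_rel (fun b y => (r b a ∧ Gr x b y) ∨ (¬ r b a ∧ f x a = y)) (by fun_prop)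
          fun b y => by
            by_cases hb : r b a
            · simpa [hb] using ⟨fun e => e ▸ ih b hb, sound x b y⟩
            · simp [hb]
      have e : ∀ b, (r b a ∨ b = a) → (if r b a then f x b else f x a) = f x b := by
        rintro b (hb | rfl)
        · exact if_pos hb
        · exact ite_self _
      exact ⟨⟨_, hg⟩, fun b hb => (h x b _ (fun c hc => e c
        (Or.inl (hb.elim (tr _ _ _ hc) fun e => e ▸ hc))) _).2 (e b hb).symm, e a (Or.inr rfl)⟩
  exact MF.of_rel (fun p y => Gr p.1 p.2 y) (by fun_prop) fun p y => ⟨fun e => e ▸ full _ _, sound _ _ _⟩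

instance : Cd M ℕ where
  c := nat
  inj _ _ := nat_inj
  ex := ⟨_, Mdl.zf.inf, fun _ => mem_omega.trans (exists_congr fun _ => eq_comm)⟩

namespace MF

section Nat

variable {f g : α → ℕ}

@[fun_prop] theorem ltN (hf : MF M f) (hg : MF M g) : MF M fun x => f x < g x := by
  have : Df M fun p : ℕ × ℕ => p.1 < p.2 := by
    refine Df.intro (.ex (.ex (.and (.pr 2 1 0) (.mem 1 0)))) [] (by simp) fun x => ?_
    simp only [F0.S, List.getD_cons_zero, List.getD_cons_succ, cd_prod, ZFSet.pair_inj]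
    constructor
    · rintro ⟨_, -, _, -, ⟨rfl, rfl⟩, h⟩
      obtain ⟨i, hi, e⟩ := mem_nat.1 h
      rwa [nat_inj e]
    · exact fun h => ⟨_, cd_mem _, _, cd_mem _, ⟨rfl, rfl⟩, mem_nat.2 ⟨_, h, rfl⟩⟩
  exact (MF.of_df this).comp (hf.prodMk hg)

@[fun_prop] theorem leN (hf : MF M f) (hg : MF M g) : MF M fun x => f x ≤ g x :=
  (ltN hg hf).not.of_iff fun _ => not_lt.symm

theorem succN (hf : MF M f) : MF M fun x => f x + 1 :=
  of_rel (fun x y => ∀ z, z < y ↔ z ≤ f x) (by fun_prop) fun x y =>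
    ⟨fun e z => by omega, fun h => by have := h (f x); have := h (f x + 1); omega⟩

end Nat

theorem natRec {z : γ → β} {s : γ → ℕ → β → β} (hz : MF M z)
    (hs : MF M fun p : γ × ℕ × β => s p.1 p.2.1 p.2.2) :
    MF M fun p : γ × ℕ => (Nat.rec (z p.1) (s p.1) p.2 : β) := by
  have := succN (M := M) (f := fun n : ℕ => n) id'
  refine wfrec (M := M) (· < ·) wellFounded_lt (fun _ _ _ => lt_trans) (by fun_prop)
    (fun x n => (Nat.rec (z x) (s x) n : β))
    (fun x n g y => (n = 0 ∧ z x = y) ∨ ∃ k, n = k + 1 ∧ s x k (g.fn k) = y) (by fun_prop) ?_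
  rintro x (_ | n) g hg y
  · simp
  · simp [hg n n.lt_succ_self]

/-- Functions defined by recursion equations. -/
theorem of_rec (F : γ → ℕ → β) (s : γ → ℕ → β → β) (hz : MF M fun x => F x 0)
    (hs : MF M fun p : γ × ℕ × β => s p.1 p.2.1 p.2.2) (e : ∀ x n, F x (n + 1) = s x n (F x n)) :
    MF M fun p : γ × ℕ => F p.1 p.2 :=
  (natRec hz hs).congr fun p => by
    obtain ⟨x, n⟩ := p
    induction n with
    | zero => rfl
    | succ n ih => exact (e x n).trans (congrArg _ ih)

theorem seq (F : ℕ → β) (s : ℕ → β → β) (hs : MF M fun p : ℕ × β => s p.1 p.2)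
    (e : ∀ n, F (n + 1) = s n (F n)) : MF M F :=
  (of_rec (fun _ : ℕ => F) (fun _ => s) (by fun_prop) (by fun_prop) fun _ => e).comp
    (g := fun n => (0, n)) (by fun_prop)

section Nat

variable {f g : α → ℕ}

@[fun_prop] theorem addN (hf : MF M f) (hg : MF M g) : MF M fun x => f x + g x :=
  (of_rec (fun a b : ℕ => a + b) (fun _ _ y => y + 1) id' (succN (by fun_prop))
    fun _ _ => rfl).comp (hf.prodMk hg)

@[fun_prop] theorem mulN (hf : MF M f) (hg : MF M g) : MF M fun x => f x * g x :=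
  (of_rec (fun a b : ℕ => a * b) (fun a _ y => y + a) (const 0) (by fun_prop)
    fun _ _ => rfl).comp (hf.prodMk hg)

@[fun_prop] theorem powN (hf : MF M f) (hg : MF M g) : MF M fun x => f x ^ g x :=
  (of_rec (fun a b : ℕ => a ^ b) (fun a _ y => y * a) (const 1) (by fun_prop)
    fun _ _ => rfl).comp (hf.prodMk hg)

@[fun_prop] theorem subN (hf : MF M f) (hg : MF M g) : MF M fun x => f x - g x :=
  of_rel (fun x y => (f x ≤ g x ∧ y = 0) ∨ y + g x = f x) (by fun_prop) fun _ _ => by omega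

@[fun_prop] theorem maxN (hf : MF M f) (hg : MF M g) : MF M fun x => max (f x) (g x) :=
  of_rel (fun x y => (f x ≤ g x ∧ y = g x) ∨ (g x ≤ f x ∧ y = f x)) (by fun_prop) fun _ _ => by omega

@[fun_prop] theorem factorial (hf : MF M f) : MF M fun x => (f x).factorial :=
  (seq Nat.factorial (fun n y => (n + 1) * y) (by fun_prop) fun _ => rfl).comp hf

@[fun_prop] theorem dvdN (hf : MF M f) (hg : MF M g) : MF M fun x => f x ∣ g x := by
  show MF M fun x => ∃ c, g x = f x * c
  fun_prop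

@[fun_prop] theorem pairN (hf : MF M f) (hg : MF M g) : MF M fun x => Nat.pair (f x) (g x) := by
  unfold Nat.pair; fun_prop

@[fun_prop] theorem unpair (hf : MF M f) : MF M fun x => Nat.unpair (f x) :=
  of_rel (fun x y => f x = Nat.pair y.1 y.2) (by fun_prop) fun _ _ =>
    ⟨fun e => by rw [← e, Nat.pair_unpair], fun e => by rw [e, Nat.unpair_pair]⟩

end Nat

end MF

noncomputable instance : Cd M Bool :=
  Cd.ofInj (fun b : Bool => b = true) (fun a b h => Bool.eq_iff_iff.2 (eq_iff_iff.1 h))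
    ((MF.const True).of_iff fun p => by classical exact iff_true_intro ⟨decide p, by simp⟩)

@[fun_prop] theorem MF.decide {p : α → Prop} [∀ x, Decidable (p x)] (hp : MF M p) :
    MF M fun x => decide (p x) :=
  MF.of_rel (fun x y => p x ↔ y = true) (by fun_prop) fun x y => by cases y <;> simp

/-- An option as a set. -/
def optS (o : Option α) : PM M α := PM.of (fun a => o = some a) (by
  cases o with
  | none => exact (MF.const False).of_iff (by simp)
  | some b => exact MF.of_iff (p := fun a => b = a) (by fun_prop) (by simp))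

theorem optS_inj : Injective (optS (M := M) (α := α)) := fun a b h =>
  Option.ext fun x => by simpa [optS] using congrArg (fun s => x ∈ s) h

noncomputable instance : Cd M (Option α) :=
  Cd.ofInj optS optS_inj (MF.of_iff (p := fun s : PM M α => ∀ a b, a ∈ s → b ∈ s → a = b)
    (by fun_prop) fun s => by
      constructor
      · rintro ⟨o, rfl⟩ a b (ha : o = _) (hb : o = _)
        exact Option.some.inj (ha.symm.trans hb)
      · intro h
        by_cases e : ∃ a, a ∈ s
        · obtain ⟨a, ha⟩ := e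
          exact ⟨some a, PM.ext' fun x => ⟨fun e => Option.some.inj e ▸ ha,
            fun hx => congrArg some (h _ _ ha hx)⟩⟩
        · exact ⟨none, PM.ext' fun x => ⟨fun e => (by cases e), fun hx => (e ⟨x, hx⟩).elim⟩⟩)

theorem MF.optS : MF M (optS (M := M) (α := α)) := MF.of_code fun _ => rfl

theorem MF.toOpt {f : α → Option β} (h : MF M fun p : α × β => f p.1 = some p.2) : MF M f :=
  MF.of_inj optS_inj MF.optS (MF.toPM h)

@[fun_prop] theorem MF.some {f : α → β} (hf : MF M f) : MF M fun x => some (f x) :=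
  MF.toOpt (MF.of_iff (p := fun p : α × β => f p.1 = p.2) (by fun_prop) (by simp))

@[fun_prop] theorem MF.optGetD {f : α → Option β} {g : α → β} (hf : MF M f) (hg : MF M g) :
    MF M fun x => (f x).getD (g x) :=
  MF.of_rel (fun x y => f x = Option.some y ∨ (f x = none ∧ g x = y)) (by fun_prop) fun x y => by
    cases f x <;> simp

/-- A list as a set of index-entry pairs. -/
def listS (l : List α) : PM M (ℕ × α) := PM.of (fun p => l[p.1]? = some p.2) (by
  induction l with
  | nil => exact (MF.const False).of_iff (by simp)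
  | cons a l ih =>
    refine MF.of_iff (p := fun p : ℕ × α => (p.1 = 0 ∧ a = p.2) ∨
      (p.1 ≠ 0 ∧ (p.1 - 1, p.2) ∈ PM.of _ ih)) (by fun_prop) ?_
    rintro ⟨_ | n, x⟩ <;> simp)

theorem listS_inj : Injective (listS (M := M) (α := α)) := fun a b h =>
  List.ext_getElem? fun i => Option.ext fun x => by
    simpa [listS] using congrArg (fun s => (i, x) ∈ s) h

noncomputable instance : Cd M (List α) :=
  Cd.ofInj listS listS_inj (MF.of_iff (p := fun s : PM M (ℕ × α) => ∃ n, ∀ i,
      (i < n → ∃ a, ∀ b, (i, b) ∈ s ↔ a = b) ∧ (n ≤ i → ∀ b, (i, b) ∉ s))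
    (by fun_prop) fun s => by
      constructor
      · rintro ⟨l, rfl⟩
        refine ⟨l.length, fun i => ⟨fun h => ⟨l[i], fun b => ?_⟩, fun h b => ?_⟩⟩
        · simp [listS, h]
        · simp [listS, h]
      · rintro ⟨n, h⟩
        choose f hf using fun i : Fin n => (h i).1 i.2
        refine ⟨List.ofFn f, PM.ext' fun p => ?_⟩
        by_cases e : p.1 < n
        · simp [listS, e, ← hf ⟨p.1, e⟩]
        · simpa [listS, e] using (h p.1).2 (not_lt.1 e) p.2)

namespace MF

theorem listS : MF M (listS (M := M) (α := α)) := MF.of_code fun _ => rfl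

@[fun_prop] theorem getElem? {f : α → List β} {g : α → ℕ} (hf : MF M f) (hg : MF M g) :
    MF M fun x => (f x)[g x]? := by
  have := listS (M := M) (α := β)
  exact toOpt (of_iff (p := fun p : α × β => (g p.1, p.2) ∈ InModel.listS (M := M) (f p.1))
    (by fun_prop) fun _ => Iff.rfl)

theorem toList {f : α → List β} (h : MF M fun p : α × ℕ => (f p.1)[p.2]?) : MF M f :=
  of_inj listS_inj listS (toPM (of_iff (p := fun p : α × ℕ × β => (f p.1)[p.2.1]? = .some p.2.2)
    (eq (h.comp (g := fun p : α × ℕ × β => (p.1, p.2.1)) (by fun_prop)) (by fun_prop))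
    fun _ => Iff.rfl))

variable {f f' : α → List β} {g : α → β} {n : α → ℕ}

@[fun_prop] theorem length (hf : MF M f) : MF M fun x => (f x).length :=
  of_rel (fun x y => ∀ i, y ≤ i ↔ (f x)[i]? = none) (by fun_prop) fun x y => by
    simp only [List.getElem?_eq_none_iff]
    exact ⟨fun e i => by omega, fun h => by have := h y; have := h (f x).length; omega⟩

@[fun_prop] theorem memL (hg : MF M g) (hf : MF M f) : MF M fun x => g x ∈ f x :=
  of_iff (p := fun x => ∃ i : ℕ, (f x)[i]? = .some (g x)) (by fun_prop) fun _ =>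
    List.mem_iff_getElem?

@[fun_prop] theorem cons (hg : MF M g) (hf : MF M f) : MF M fun x => g x :: f x :=
  toList (congr (f := fun p : α × ℕ => if p.2 = 0 then .some (g p.1) else (f p.1)[p.2 - 1]?)
    (by fun_prop) (by rintro ⟨x, _ | i⟩ <;> simp))

@[fun_prop] theorem append (hf : MF M f) (hf' : MF M f') : MF M fun x => f x ++ f' x :=
  toList (congr (f := fun p : α × ℕ => if p.2 < (f p.1).length then (f p.1)[p.2]? else
    (f' p.1)[p.2 - (f p.1).length]?) (by fun_prop) fun _ => List.getElem?_append)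

@[fun_prop] theorem getD (hf : MF M f) (hn : MF M n) (hg : MF M g) :
    MF M fun x => (f x).getD (n x) (g x) := by
  simp only [List.getD_eq_getElem?_getD]; fun_prop

@[fun_prop] theorem drop (hn : MF M n) (hf : MF M f) : MF M fun x => (f x).drop (n x) :=
  toList (congr (f := fun p : α × ℕ => (f p.1)[n p.1 + p.2]?) (by fun_prop)
    fun _ => List.getElem?_drop)

@[fun_prop] theorem take (hn : MF M n) (hf : MF M f) : MF M fun x => (f x).take (n x) :=
  toList (congr (f := fun p : α × ℕ => if p.2 < n p.1 then (f p.1)[p.2]? else none) (by fun_prop)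
    fun _ => List.getElem?_take)

@[fun_prop] theorem map {F : α → β → γ} (hF : MF M fun p : α × β => F p.1 p.2) (hf : MF M f) :
    MF M fun x => (f x).map (F x) :=
  toList (toOpt (of_iff (p := fun p : (α × ℕ) × γ => ∃ b, (f p.1.1)[p.1.2]? = .some b ∧
    F p.1.1 b = p.2) (by fun_prop) (by simp)))

@[fun_prop] theorem range (hn : MF M n) : MF M fun x => List.range (n x) :=
  toList (congr (f := fun p : α × ℕ => if p.2 < n p.1 then .some p.2 else none) (by fun_prop)
    fun p => by by_cases h : p.2 < n p.1 <;> simp [h])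

/-- Functions defined by recursion on lists. -/
theorem of_listRec (F : γ → List α → β) (s : γ → α → List α → β → β) (hz : MF M fun x => F x [])
    (hs : MF M fun p : γ × α × List α × β => s p.1 p.2.1 p.2.2.1 p.2.2.2)
    (e : ∀ x a l, F x (a :: l) = s x a l (F x l)) : MF M fun p : γ × List α => F p.1 p.2 := by
  refine wfrec (M := M) (fun a b => a.length < b.length) (InvImage.wf List.length wellFounded_lt)
    (fun _ _ _ => lt_trans) (by fun_prop) F
    (fun x l g y => (l = [] ∧ F x [] = y) ∨ ∃ a r, l = a :: r ∧ s x a r (g.fn r) = y)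
    (by fun_prop) ?_
  rintro x (_ | ⟨a, l⟩) g hg y
  · simp
  · simp [hg l (by simp), e]

@[fun_prop] theorem flatMap {F : α → β → List γ} (hF : MF M fun p : α × β => F p.1 p.2)
    (hf : MF M f) : MF M fun x => (f x).flatMap (F x) :=
  (of_listRec (fun x (l : List β) => l.flatMap (F x)) (fun x a _ y => F x a ++ y)
    (by simp only [List.flatMap_nil]; fun_prop) (by fun_prop) (by simp)).comp (id'.prodMk hf)

end MF

/-- An element of `M` as a coded type. -/
def ZE (a : {a // a ∈ M}) : Type 1 := {x // x ∈ a.1}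

instance (a : {a // a ∈ M}) : Cd M (ZE a) where
  c x := x.1
  inj := Subtype.val_injective
  ex := ⟨a.1, a.2, fun z => ⟨fun h => ⟨⟨z, h⟩, rfl⟩, fun ⟨x, e⟩ => e ▸ x.2⟩⟩

/-- Every element of `M` has a well-ordering in `M`. -/
class Chc (M : ZFSet.{0}) [Mdl M] : Prop where
  wo : ∀ a : {a // a ∈ M}, ∃ r : ZE a → ZE a → Prop,
    IsWellOrder (ZE a) r ∧ MF M fun p : ZE a × ZE a => r p.1 p.2

theorem exists_ZE (M : ZFSet.{0}) [Mdl M] (α : Type u) [Cd M α] :
    ∃ (a : {a // a ∈ M}) (e : α → ZE a), Bijective e ∧ MF M e := by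
  obtain ⟨a, ha, h⟩ := Cd.ex (M := M) (α := α)
  exact ⟨⟨a, ha⟩, fun x => ⟨cd M x, (h _).2 ⟨x, rfl⟩⟩,
    ⟨fun _ _ e => cd_inj.1 (congrArg Subtype.val e), fun z => ((h _).1 z.2).imp fun _ =>
      Subtype.ext⟩, MF.of_code fun _ => rfl⟩

theorem choice_of_wo (r : β → β → Prop) [IsWellOrder β r] (hr : MF M fun p : β × β => r p.1 p.2)
    {R : α → β → Prop} (hR : MF M fun p : α × β => R p.1 p.2) (h : ∀ a, ∃ b, R a b) :
    ∃ f, MF M f ∧ ∀ a, R a (f a) := by
  have wf : WellFounded r := IsWellFounded.wf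
  refine ⟨fun a => wf.min {b | R a b} (h a), MF.of_rel (fun a y => R a y ∧ ∀ z, R a z → ¬ r z y)
    (by fun_prop) fun a y => ⟨?_, fun ⟨h1, h2⟩ => ?_⟩, fun a => wf.min_mem _ (h a)⟩
  · rintro rfl
    exact ⟨wf.min_mem _ (h a), fun z hz => wf.not_lt_min _ hz⟩
  · rcases trichotomous_of r (wf.min {b | R a b} (h a)) y with e | e | e
    · exact (h2 _ (wf.min_mem _ (h a)) e).elim
    · exact e
    · exact (wf.not_lt_min _ h1 e).elim

variable [Chc M]

theorem exists_wo (M : ZFSet.{0}) [Mdl M] [Chc M] (α : Type u) [Cd M α] :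
    ∃ r : α → α → Prop, IsWellOrder α r ∧ MF M fun p : α × α => r p.1 p.2 := by
  obtain ⟨a, e, he, hm⟩ := exists_ZE M α
  obtain ⟨r, h1, h2⟩ := Chc.wo a
  exact ⟨fun x y => r (e x) (e y), (RelEmbedding.preimage ⟨e, he.1⟩ r).isWellOrder, by fun_prop⟩

theorem choice {R : α → β → Prop} (hR : MF M fun p : α × β => R p.1 p.2) (h : ∀ a, ∃ b, R a b) :
    ∃ f, MF M f ∧ ∀ a, R a (f a) := by
  obtain ⟨r, h1, h2⟩ := exists_wo M β
  exact choice_of_wo r h2 hR h

/-- Choice for a relation that is total only on part of the domain. -/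
theorem choice' [Nonempty β] {R : α → β → Prop} (hR : MF M fun p : α × β => R p.1 p.2) :
    ∃ f, MF M f ∧ ∀ a, (∃ b, R a b) → R a (f a) :=
  choice (R := fun a b => (∃ b, R a b) → R a b) (by fun_prop) fun a => by
    by_cases h : ∃ b, R a b
    · exact h.imp fun _ h _ => h
    · exact ⟨Classical.arbitrary β, fun h' => (h h').elim⟩

/-- Choice of a family of functions. -/
theorem choiceF {δ : Type*} [Cd M δ] {R : α → FM M β δ → Prop}
    (hR : MF M fun p : α × FM M β δ => R p.1 p.2) (h : ∀ a, ∃ f, ∃ hf, R a ⟨f, hf⟩) :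
    ∃ F : α → FM M β δ, MF M F ∧ ∀ a, R a (F a) :=
  choice hR fun a => let ⟨_, _, h⟩ := h a; ⟨_, h⟩

/-- Dependent choice. -/
theorem exists_chain {P : α → Prop} {R : ℕ → α → α → Prop} (hP : MF M P)
    (hR : MF M fun p : ℕ × α × α => R p.1 p.2.1 p.2.2) {a : α} (ha : P a)
    (h : ∀ n x, P x → ∃ y, P y ∧ R n x y) :
    ∃ x : ℕ → α, MF M x ∧ x 0 = a ∧ ∀ n, P (x n) ∧ R n (x n) (x (n + 1)) := by
  have : Nonempty α := ⟨a⟩
  obtain ⟨f, hf, h1⟩ := choice' (M := M) (R := fun (p : ℕ × α) y => P y ∧ R p.1 p.2 y) (by fun_prop)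
  let x : ℕ → α := fun n => Nat.rec a (fun n y => f (n, y)) n
  have h2 : ∀ n, P (x n) := fun n => Nat.rec ha (fun n ih => (h1 (n, x n) (h n _ ih)).1) n
  exact ⟨x, MF.seq x (fun n y => f (n, y)) (by fun_prop) fun _ => rfl, rfl,
    fun n => ⟨h2 n, (h1 (n, x n) (h n _ (h2 n))).2⟩⟩

theorem exists_seq {R : α → α → Prop} (hR : MF M fun p : α × α => R p.1 p.2)
    (h : ∀ l : List α, ∃ y, ∀ x ∈ l, R x y) :
    ∃ x : ℕ → α, MF M x ∧ ∀ m n, m < n → R (x m) (x n) := by
  obtain ⟨f, hf, h1⟩ := choice (M := M) (R := fun (l : List α) y => ∀ x ∈ l, R x y) (by fun_prop) h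
  let l : ℕ → List α := fun n => Nat.rec [] (fun _ l => f l :: l) n
  have hl : MF M l := MF.seq l (fun _ l => f l :: l) (by fun_prop) fun _ => rfl
  refine ⟨fun n => f (l n), by fun_prop, fun m n hmn => h1 _ _ ?_⟩
  induction hmn with
  | refl => exact List.mem_cons_self
  | step _ ih => exact List.mem_cons_of_mem _ ih

/-- Maximal sets for properties of finite character. -/
theorem tukey (P : Set α → Prop) (hP : MF M fun s : PM M α => P s.set)
    (fin : ∀ S, (∀ F : Finset α, ↑F ⊆ S → ∃ S', ↑F ⊆ S' ∧ P S') → P S) (S₀ : PM M α)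
    (h₀ : P S₀.set) : ∃ S : PM M α, S₀.set ⊆ S.set ∧ P S.set ∧ ∀ a, P (insert a S.set) → a ∈ S := by
  classical
  obtain ⟨r, wo, hr⟩ := exists_wo M α
  have wf : WellFounded r := IsWellFounded.wf
  let f : α → Prop := wf.fix fun a g => P (insert a (S₀.set ∪ {b | ∃ h : r b a, g b h}))
  have ef : ∀ a, f a ↔ P (insert a (S₀.set ∪ {b | r b a ∧ f b})) := fun a => by
    simp only [f]; rw [wf.fix_eq]; simp
  let T : α × FM M α Prop → PM M α :=
    PM.lam (fun p b => b = p.1 ∨ b ∈ S₀ ∨ (r b p.1 ∧ p.2.fn b)) (by fun_prop)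
  have hT : MF M T := MF.pmlam MF.id'
  have hf : MF M f := by
    refine (MF.wfrec r wf (fun _ _ _ => _root_.trans) hr (fun _ : ℕ => f)
      (fun _ a g y => P (T (a, g)).set = y) (MF.eq (hP.comp (by fun_prop)) (by fun_prop))
      fun _ a g hg y => ?_).comp (g := fun a => (0, a)) (by fun_prop)
    have : (T (a, g)).set = insert a (S₀.set ∪ {b | r b a ∧ f b}) := by
      ext b
      exact or_congr_right (or_congr_right (and_congr_right fun h => by rw [hg b h]))
    rw [this, ← ef]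
  refine ⟨PM.of (fun a => a ∈ S₀ ∨ f a) (by fun_prop), fun _ => Or.inl, fin _ fun F hF => ?_,
    fun a ha => Or.inr ((ef a).2 (fin _ fun F hF => ⟨_, hF.trans ?_, ha⟩))⟩
  · by_cases e : (F.filter f).Nonempty
    · let _ := linearOrderOfSTO r
      obtain ⟨m, hm, h⟩ := (F.filter f).exists_max_image id e
      refine ⟨_, fun b hb => ?_, (ef m).1 (Finset.mem_filter.1 hm).2⟩
      rcases hF hb with h1 | h1
      · exact Or.inr (Or.inl h1)
      · rcases (h b (Finset.mem_filter.2 ⟨hb, h1⟩)).lt_or_eq with h2 | h2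
        · exact Or.inr (Or.inr ⟨h2, h1⟩)
        · exact Or.inl h2
    · exact ⟨_, fun b hb => (hF hb).resolve_right fun h => e ⟨b, Finset.mem_filter.2 ⟨hb, h⟩⟩, h₀⟩
  · exact Set.insert_subset_insert fun b hb => hb.imp_right And.right

theorem ac : ∀ a ∈ M, ∃ f ∈ M, ∀ x ∈ a, x ≠ ∅ → ∃ y ∈ x, ∀ z, ZFSet.pair x z ∈ f ↔ z = y := by
  intro a ha
  let A : {a // a ∈ M} := ⟨a, ha⟩
  let B : {a // a ∈ M} := ⟨_, union_mem (Mdl.zf.union a ha) (sing_mem empty_mem)⟩
  have : Nonempty (ZE B) := ⟨⟨∅, ZFSet.mem_union.2 (Or.inr (ZFSet.mem_singleton.2 rfl))⟩⟩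
  have hR : MF M fun p : ZE A × ZE B => p.2.1 ∈ p.1.1 := by
    refine MF.of_df (Df.intro (.ex (.ex (.and (.pr 2 1 0) (.mem 0 1)))) [] (by simp) fun x => ?_)
    simp only [F0.S, List.getD_cons_zero, List.getD_cons_succ, cd_prod, ZFSet.pair_inj]
    exact ⟨by rintro ⟨_, -, _, -, ⟨rfl, rfl⟩, h⟩; exact h,
      fun h => ⟨_, cd_mem _, _, cd_mem _, ⟨rfl, rfl⟩, h⟩⟩
  obtain ⟨f, ⟨g, hg, h1⟩, h2⟩ := choice' (M := M) (R := fun (x : ZE A) (y : ZE B) => y.1 ∈ x.1) hR
  refine ⟨g, hg, fun x hx ne => ?_⟩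
  obtain ⟨y, hy⟩ := (ZFSet.eq_empty_or_nonempty x).resolve_left ne
  refine ⟨_, h2 ⟨x, hx⟩ ⟨⟨y, ZFSet.mem_union.2 (Or.inl (ZFSet.mem_sUnion.2 ⟨x, hx, hy⟩))⟩, hy⟩,
    fun z => (h1 _).trans ⟨?_, ?_⟩⟩
  · rintro ⟨p, e1, e2⟩
    rw [cd_prod, ZFSet.pair_inj] at e2
    rw [← e2.2, ← e1, show p.1 = ⟨x, hx⟩ from Subtype.ext e2.1]
    rfl
  · rintro rfl
    exact ⟨(⟨x, hx⟩, _), rfl, rfl⟩

end Pool.Agent.Shared.InModel
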